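import Pool.Agent.H411R2.WSK.Conn

/-!
# Kempe classes of the 3-edge-colourings of the periodic honeycomb graphs

At each vertex of the `n × n` periodic honeycomb graph the colours of the three edges, in the fixed
order of the three directions, form an even or an odd permutation; the number of odd vertices modulo 2
does not change in a Kempe change. For each `n ≥ 3` there is a colouring for which this number is odd,
and for the colouring by directions it is zero. For `n = 2` all 3-edge-colourings are Kempe equivalent.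
-/

set_option autoImplicit false

namespace Pool.Agent.Results.MP_7c0803_co.HoneycombTori

open Pool.Agent.H411R2.WSK

variable {n : ℕ}

/-- the sites of the Bravais lattice -/
abbrev Z (n : ℕ) := ZMod n × ZMod n

/-- the three directions -/
def dl (n : ℕ) (t : Fin 3) : Z n := if t = 0 then 0 else if t = 1 then (1, 0) else (0, 1)

theorem dl_inj (hn : 2 ≤ n) : Function.Injective (dl n) := by
  have : Fact (1 < n) := ⟨hn⟩
  have h : (1 : ZMod n) ≠ 0 := one_ne_zero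
  intro s t hst
  fin_cases s <;> fin_cases t <;> simp [dl, Prod.ext_iff, h, eq_comm] at hst ⊢

theorem honey_adj (x : Z n) (t : Fin 3) :
    (honeycomb n).Adj (Sum.inl x) (Sum.inr (x - dl n t)) := by
  rw [honeycomb, SimpleGraph.fromRel_adj]
  refine ⟨by simp, Or.inl ⟨x, rfl, ?_⟩⟩
  fin_cases t
  · left; simp [dl]
  · right; left; simp [dl]
  · right; right; simp [dl]

/-- the edge of the honeycomb graph at `(x, A)` in the direction `t` -/
def ed (x : Z n) (t : Fin 3) : (honeycomb n).edgeSet :=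
  ⟨s(Sum.inl x, Sum.inr (x - dl n t)), honey_adj x t⟩

theorem ed_inj (hn : 2 ≤ n) {x x' : Z n} {t t' : Fin 3} (h : ed x t = ed x' t') :
    x = x' ∧ t = t' := by
  have h1 : s((Sum.inl x : Z n ⊕ Z n), Sum.inr (x - dl n t)) =
      s(Sum.inl x', Sum.inr (x' - dl n t')) := congrArg Subtype.val h
  rw [Sym2.eq_iff] at h1
  rcases h1 with ⟨h1, h2⟩ | ⟨h1, -⟩
  · have hx : x = x' := Sum.inl_injective h1
    have h3 := Sum.inr_injective h2
    rw [hx] at h3
    exact ⟨hx, dl_inj hn (sub_right_injective h3)⟩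
  · cases h1

theorem ed_surj (e : (honeycomb n).edgeSet) : ∃ x t, ed x t = e := by
  obtain ⟨e, he⟩ := e
  induction e using Sym2.ind with
  | _ u v =>
    have h : (honeycomb n).Adj u v := he
    rw [honeycomb, SimpleGraph.fromRel_adj] at h
    obtain ⟨-, ⟨x, rfl, hx⟩ | ⟨x, rfl, hx⟩⟩ := h
    · rcases hx with rfl | rfl | rfl
      · exact ⟨x, 0, Subtype.ext (by simp [ed, dl])⟩
      · exact ⟨x, 1, Subtype.ext (by simp [ed, dl])⟩
      · exact ⟨x, 2, Subtype.ext (by simp [ed, dl])⟩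
    · rcases hx with rfl | rfl | rfl
      · exact ⟨x, 0, Subtype.ext (by simp [ed, dl])⟩
      · exact ⟨x, 1, Subtype.ext (by simp [ed, dl])⟩
      · exact ⟨x, 2, Subtype.ext (by simp [ed, dl])⟩

theorem adj_iff (x x' : Z n) (t t' : Fin 3) : (kagome n).Adj (ed x t) (ed x' t') ↔
    ed x t ≠ ed x' t' ∧ (x = x' ∨ x - dl n t = x' - dl n t') := by
  rw [kagome, SimpleGraph.lineGraph_adj_iff_exists]
  refine and_congr_right fun _ => ?_
  constructor
  · rintro ⟨v, h1, h2⟩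
    change v ∈ s(Sum.inl x, Sum.inr (x - dl n t)) at h1
    change v ∈ s(Sum.inl x', Sum.inr (x' - dl n t')) at h2
    rw [Sym2.mem_iff] at h1 h2
    rcases h1 with rfl | rfl
    · rcases h2 with h2 | h2
      · exact Or.inl (Sum.inl_injective h2)
      · cases h2
    · rcases h2 with h2 | h2
      · cases h2
      · exact Or.inr (Sum.inr_injective h2)
  · rintro (h | h)
    · refine ⟨Sum.inl x, ?_, ?_⟩
      · change Sum.inl x ∈ s(Sum.inl x, Sum.inr (x - dl n t))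
        simp
      · change Sum.inl x ∈ s(Sum.inl x', Sum.inr (x' - dl n t'))
        simp [h]
    · refine ⟨Sum.inr (x - dl n t), ?_, ?_⟩
      · change Sum.inr (x - dl n t) ∈ s(Sum.inl x, Sum.inr (x - dl n t))
        simp
      · change Sum.inr (x - dl n t) ∈ s(Sum.inl x', Sum.inr (x' - dl n t'))
        simp [h]

theorem adjA (hn : 2 ≤ n) (x : Z n) {t t' : Fin 3} (h : t ≠ t') :
    (kagome n).Adj (ed x t) (ed x t') :=
  (adj_iff x x t t').2 ⟨fun h' => h (ed_inj hn h').2, Or.inl rfl⟩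

theorem adjB (hn : 2 ≤ n) (y : Z n) {t t' : Fin 3} (h : t ≠ t') :
    (kagome n).Adj (ed (y + dl n t) t) (ed (y + dl n t') t') :=
  (adj_iff _ _ t t').2 ⟨fun h' => h (ed_inj hn h').2, Or.inr (by simp)⟩

/-! ### the parity -/

/-- the parity of the permutation `(p, q, r)` -/
def par (p q r : Fin 3) : ZMod 2 :=
  if (p = 0 ∧ q = 1 ∧ r = 2) ∨ (p = 1 ∧ q = 2 ∧ r = 0) ∨ (p = 2 ∧ q = 0 ∧ r = 1) then 0 else 1

/-- the number of odd vertices -/
def T [NeZero n] (f : Z n → Fin 3 → Fin 3) : ZMod 2 :=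
  ∑ x, par (f x 0) (f x 1) (f x 2) +
    ∑ y, par (f (y + dl n 0) 0) (f (y + dl n 1) 1) (f (y + dl n 2) 2)

def tog (a b : Fin 3) (u : Bool) (p : Fin 3) : Fin 3 := if u then Equiv.swap a b p else p

def ind (a : Fin 3) (u : Bool) (p : Fin 3) : ZMod 2 := if u = true ∧ p = a then 1 else 0

/-- the hypotheses of the local lemma -/
def Loc (a b p q r : Fin 3) (u v w : Bool) : Prop :=
  (a ≠ b ∧ p ≠ q ∧ p ≠ r ∧ q ≠ r) ∧
    ((u = true → p = a ∨ p = b) ∧ (v = true → q = a ∨ q = b) ∧ (w = true → r = a ∨ r = b)) ∧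
    ((u = true → (q = a ∨ q = b) → v = true) ∧ (u = true → (r = a ∨ r = b) → w = true)) ∧
    ((v = true → (p = a ∨ p = b) → u = true) ∧ (v = true → (r = a ∨ r = b) → w = true)) ∧
    ((w = true → (p = a ∨ p = b) → u = true) ∧ (w = true → (q = a ∨ q = b) → v = true))

instance (a b p q r : Fin 3) (u v w : Bool) : Decidable (Loc a b p q r u v w) := by
  unfold Loc
  infer_instance

theorem par_tog : ∀ a b p q r : Fin 3, ∀ u v w : Bool, Loc a b p q r u v w →
    par (tog a b u p) (tog a b v q) (tog a b w r) =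
      par p q r + (ind a u p + ind a v q + ind a w r) := by
  decide +kernel

theorem T_kempe [NeZero n] (hn : 2 ≤ n) {c c' : (honeycomb n).edgeSet → Fin 3}
    (hc : Proper (kagome n) c) {a b : Fin 3} (hab : a ≠ b) {U : Set (honeycomb n).edgeSet}
    (hU : Closed (kagome n) c a b U) (hs : IsSwap c c' a b U) :
    T (fun x t => c' (ed x t)) = T (fun x t => c (ed x t)) := by
  classical
  have hc' : ∀ e, c' e = tog a b (decide (e ∈ U)) (c e) := by
    intro e
    by_cases he : e ∈ U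
    · rw [hs.1 e he]; simp [tog, he]
    · rw [hs.2 e he]; simp [tog, he]
  have hloc : ∀ e₀ e₁ e₂ : (honeycomb n).edgeSet, (kagome n).Adj e₀ e₁ → (kagome n).Adj e₀ e₂ →
      (kagome n).Adj e₁ e₂ → par (c' e₀) (c' e₁) (c' e₂) = par (c e₀) (c e₁) (c e₂) +
        (ind a (decide (e₀ ∈ U)) (c e₀) + ind a (decide (e₁ ∈ U)) (c e₁) +
          ind a (decide (e₂ ∈ U)) (c e₂)) := by
    intro e₀ e₁ e₂ h01 h02 h12
    rw [hc' e₀, hc' e₁, hc' e₂]
    exact par_tog a b (c e₀) (c e₁) (c e₂) _ _ _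
      ⟨⟨hab, hc _ _ h01, hc _ _ h02, hc _ _ h12⟩,
      ⟨fun h => hU.1 _ (of_decide_eq_true h), fun h => hU.1 _ (of_decide_eq_true h),
        fun h => hU.1 _ (of_decide_eq_true h)⟩,
      ⟨fun h h' => decide_eq_true (hU.2 _ (of_decide_eq_true h) _ h01 h'),
        fun h h' => decide_eq_true (hU.2 _ (of_decide_eq_true h) _ h02 h')⟩,
      ⟨fun h h' => decide_eq_true (hU.2 _ (of_decide_eq_true h) _ h01.symm h'),
        fun h h' => decide_eq_true (hU.2 _ (of_decide_eq_true h) _ h12 h')⟩,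
      ⟨fun h h' => decide_eq_true (hU.2 _ (of_decide_eq_true h) _ h02.symm h'),
        fun h h' => decide_eq_true (hU.2 _ (of_decide_eq_true h) _ h12.symm h')⟩⟩
  have h01 : (0 : Fin 3) ≠ 1 := by decide
  have h02 : (0 : Fin 3) ≠ 2 := by decide
  have h12 : (1 : Fin 3) ≠ 2 := by decide
  set g : Z n → Fin 3 → ZMod 2 := fun x t => ind a (decide (ed x t ∈ U)) (c (ed x t)) with hg
  have hA : ∑ x, par (c' (ed x 0)) (c' (ed x 1)) (c' (ed x 2)) =
      ∑ x, par (c (ed x 0)) (c (ed x 1)) (c (ed x 2)) + (∑ x, g x 0 + ∑ x, g x 1 + ∑ x, g x 2) := by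
    rw [← Finset.sum_add_distrib, ← Finset.sum_add_distrib, ← Finset.sum_add_distrib]
    exact Finset.sum_congr rfl fun x _ =>
      hloc _ _ _ (adjA hn x h01) (adjA hn x h02) (adjA hn x h12)
  have hB : ∑ y, par (c' (ed (y + dl n 0) 0)) (c' (ed (y + dl n 1) 1)) (c' (ed (y + dl n 2) 2)) =
      ∑ y, par (c (ed (y + dl n 0) 0)) (c (ed (y + dl n 1) 1)) (c (ed (y + dl n 2) 2)) +
        (∑ y, g (y + dl n 0) 0 + ∑ y, g (y + dl n 1) 1 + ∑ y, g (y + dl n 2) 2) := by
    rw [← Finset.sum_add_distrib, ← Finset.sum_add_distrib, ← Finset.sum_add_distrib]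
    exact Finset.sum_congr rfl fun y _ =>
      hloc _ _ _ (adjB hn y h01) (adjB hn y h02) (adjB hn y h12)
  have hsh : ∀ t, ∑ y, g (y + dl n t) t = ∑ x, g x t := fun t =>
    Equiv.sum_comp (Equiv.addRight (dl n t)) fun x => g x t
  rw [T, T, hA, hB, hsh, hsh, hsh]
  generalize (∑ x, g x 0 + ∑ x, g x 1 + ∑ x, g x 2) = z
  have hz : z + z = 0 := CharTwo.add_self_eq_zero z
  rw [add_add_add_comm, hz, add_zero]

theorem T_reach [NeZero n] (hn : 2 ≤ n) {c c' : (kagome n).Coloring (Fin 3)}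
    (h : Relation.ReflTransGen KempeStep c c') :
    T (fun x t => c' (ed x t)) = T (fun x t => c (ed x t)) := by
  induction h with
  | refl => rfl
  | tail _ hstep ih =>
    obtain ⟨a, b, hab, U, hU, hs⟩ := hstep.closed
    rename_i e e' _
    rw [← ih]
    exact T_kempe hn (fun v w h => e.valid h) hab hU hs

/-! ### colourings -/

theorem exists_coloring (hn : 2 ≤ n) (f : Z n → Fin 3 → Fin 3)
    (hA : ∀ x, Function.Injective (f x))
    (hB : ∀ y, Function.Injective fun t => f (y + dl n t) t) :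
    ∃ c : (honeycomb n).edgeSet → Fin 3, Proper (kagome n) c ∧ ∀ x t, c (ed x t) = f x t := by
  choose X D hXD using fun e : (honeycomb n).edgeSet => ed_surj e
  have hc : ∀ x t, X (ed x t) = x ∧ D (ed x t) = t := fun x t => ed_inj hn (hXD (ed x t))
  refine ⟨fun e => f (X e) (D e), ?_, fun x t => by
    change f (X (ed x t)) (D (ed x t)) = f x t
    rw [(hc x t).1, (hc x t).2]⟩
  intro e e' hee'
  obtain ⟨x, t, rfl⟩ := ed_surj e
  obtain ⟨x', t', rfl⟩ := ed_surj e'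
  change f (X (ed x t)) (D (ed x t)) ≠ f (X (ed x' t')) (D (ed x' t'))
  rw [(hc x t).1, (hc x t).2, (hc x' t').1, (hc x' t').2]
  obtain ⟨hne, h⟩ := (adj_iff x x' t t').1 hee'
  intro heq
  rcases h with rfl | h
  · exact hne (by rw [hA x heq])
  · obtain ⟨y, rfl⟩ : ∃ y, x = y + dl n t := ⟨x - dl n t, by simp⟩
    have hx' : x' = y + dl n t' := by
      rw [add_sub_cancel_right] at h
      rw [h]
      simp
    subst hx'
    have := hB y heq
    subst this
    exact hne rfl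

/-! ### an odd colouring -/

/-- the colours of the three edges at the vertex `((i, j), A)` -/
def code (n i j : ℕ) : Fin 3 → Fin 3 :=
  if j + 1 = n then
    if i = 0 then ![1, 2, 0] else if i + 2 < n then ![1, 0, 2] else
      if i + 2 = n then ![2, 0, 1] else ![0, 1, 2]
  else if i + 1 = n then
    if j = 0 then ![2, 0, 1] else if j + 2 < n then ![2, 1, 0] else ![1, 2, 0]
  else if i + j + 2 = n then
    if i = 0 then ![2, 0, 1] else if i + 2 < n then ![0, 2, 1] else ![1, 2, 0]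
  else ![0, 1, 2]

/-- the successor modulo `n` -/
def sc (n i : ℕ) : ℕ := if i + 1 = n then 0 else i + 1

/-- the contributions of the two vertices at `(i, j)` to the parity -/
def R (n i j : ℕ) : ZMod 2 :=
  if j + 1 = n ∨ j + 2 = n then
    (if i = 0 then 1 else 0) + (if i = n - 2 then 1 else 0) + (if i = n - 1 then 1 else 0)
  else if j = 0 then
    (if i = n - 3 then 1 else 0) + (if i = n - 2 then 1 else 0) + (if i = n - 1 then 1 else 0)
  else (if i = n - 2 - j then 1 else 0) + (if i = n - 3 - j then 1 else 0)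

theorem code_inj (n i j : ℕ) : Function.Injective (code n i j) := by
  unfold code
  split_ifs <;> decide

theorem code_spec {n i j : ℕ} (hn : 3 ≤ n) (hi : i < n) (hj : j < n) :
    (code n i j 0 ≠ code n (sc n i) j 1 ∧ code n i j 0 ≠ code n i (sc n j) 2 ∧
      code n (sc n i) j 1 ≠ code n i (sc n j) 2) ∧
    par (code n i j 0) (code n i j 1) (code n i j 2) +
      par (code n i j 0) (code n (sc n i) j 1) (code n i (sc n j) 2) = R n i j := by
  have hi' : i = 0 ∨ (0 < i ∧ i + 2 < n) ∨ i + 2 = n ∨ i + 1 = n := by omega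
  have hj' : j + 1 = n ∨ j + 2 = n ∨ j = 0 ∨ (0 < j ∧ j + 2 < n) := by omega
  have hd : i + j + 2 = n ∨ i + j + 3 = n ∨ (i + j + 2 ≠ n ∧ i + j + 3 ≠ n) := by omega
  rcases hi' with hi' | hi' | hi' | hi' <;> rcases hj' with hj' | hj' | hj' | hj' <;>
    rcases hd with hd | hd | hd <;> first
      | (exfalso; omega)
      | (simp (disch := omega) only [code, sc, R, if_pos, if_neg]
         first | decide | (split_ifs <;> first | contradiction | omega | decide))

theorem sum_val (n : ℕ) [NeZero n] (h : ℕ → ZMod 2) :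
    ∑ a : ZMod n, h a.val = ∑ i ∈ Finset.range n, h i := by
  obtain ⟨m, rfl⟩ := Nat.exists_eq_succ_of_ne_zero (NeZero.ne n)
  exact Fin.sum_univ_eq_sum_range h (m + 1)

theorem sum_row {n j : ℕ} (hn : 3 ≤ n) (hj : j < n) : ∑ i ∈ Finset.range n, R n i j =
    (if j = n - 1 then 1 else 0) + (if j = n - 2 then 1 else 0) + (if j = 0 then 1 else 0) := by
  have hs : ∀ a : ℕ, a < n → ∑ i ∈ Finset.range n, (if i = a then (1 : ZMod 2) else 0) = 1 := by
    intro a ha
    rw [Finset.sum_ite_eq', if_pos (Finset.mem_range.2 ha)]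
  have hj' : j + 1 = n ∨ j + 2 = n ∨ j = 0 ∨ (0 < j ∧ j + 2 < n) := by omega
  rcases hj' with hj' | hj' | hj' | hj'
  all_goals
    simp (disch := omega) only [R, if_pos, if_neg, Finset.sum_add_distrib, hs]
    decide

theorem sum_all {n : ℕ} (hn : 3 ≤ n) :
    ∑ i ∈ Finset.range n, ∑ j ∈ Finset.range n, R n i j = 1 := by
  rw [Finset.sum_comm, Finset.sum_congr rfl fun j hj => sum_row hn (Finset.mem_range.1 hj)]
  have hs : ∀ a : ℕ, a < n → ∑ i ∈ Finset.range n, (if i = a then (1 : ZMod 2) else 0) = 1 := by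
    intro a ha
    rw [Finset.sum_ite_eq', if_pos (Finset.mem_range.2 ha)]
  rw [Finset.sum_add_distrib, Finset.sum_add_distrib, hs _ (by omega), hs _ (by omega),
    hs _ (by omega)]
  decide

theorem val_succ (hn : 2 ≤ n) (a : ZMod n) : (a + 1).val = sc n a.val := by
  have : Fact (1 < n) := ⟨hn⟩
  have : NeZero n := ⟨by omega⟩
  have h := ZMod.val_lt a
  rw [ZMod.val_add, ZMod.val_one, sc]
  by_cases ha : a.val + 1 = n
  · rw [if_pos ha, ha, Nat.mod_self]
  · rw [if_neg ha, Nat.mod_eq_of_lt (by omega)]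

theorem shift0 (y : Z n) : y + dl n 0 = y := by simp [dl]
theorem shift1 (y : Z n) : y + dl n 1 = (y.1 + 1, y.2) := by
  ext <;> simp [dl]
theorem shift2 (y : Z n) : y + dl n 2 = (y.1, y.2 + 1) := by
  ext <;> simp [dl]

/-- the odd colouring -/
def f₁ (n : ℕ) (x : Z n) : Fin 3 → Fin 3 := code n x.1.val x.2.val

theorem f₁_spec (hn : 3 ≤ n) (y : Z n) :
    (f₁ n (y + dl n 0) 0 ≠ f₁ n (y + dl n 1) 1 ∧ f₁ n (y + dl n 0) 0 ≠ f₁ n (y + dl n 2) 2 ∧
      f₁ n (y + dl n 1) 1 ≠ f₁ n (y + dl n 2) 2) ∧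
    par (f₁ n y 0) (f₁ n y 1) (f₁ n y 2) +
      par (f₁ n (y + dl n 0) 0) (f₁ n (y + dl n 1) 1) (f₁ n (y + dl n 2) 2) =
        R n y.1.val y.2.val := by
  have : NeZero n := ⟨by omega⟩
  rw [shift0, shift1, shift2, f₁, f₁, f₁]
  dsimp only
  rw [val_succ (by omega), val_succ (by omega)]
  exact code_spec hn (ZMod.val_lt _) (ZMod.val_lt _)

theorem T_f₁ [NeZero n] (hn : 3 ≤ n) : T (f₁ n) = 1 := by
  rw [T, ← Finset.sum_add_distrib, Finset.sum_congr rfl fun y _ => (f₁_spec hn y).2,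
    Fintype.sum_prod_type, ← sum_all hn, ← sum_val n fun i => ∑ j ∈ Finset.range n, R n i j]
  exact Finset.sum_congr rfl fun i _ => sum_val n fun j => R n i.val j

theorem T_f₀ [NeZero n] : T (fun (_ : Z n) t => t) = 0 := by
  rw [T]
  have h : par 0 1 2 = 0 := by decide
  simp [h]

theorem inj3 {g : Fin 3 → Fin 3} (h01 : g 0 ≠ g 1) (h02 : g 0 ≠ g 2) (h12 : g 1 ≠ g 2) :
    Function.Injective g := by
  intro s t hst
  fin_cases s <;> fin_cases t
  · rfl
  · exact absurd hst h01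
  · exact absurd hst h02
  · exact absurd hst.symm h01
  · rfl
  · exact absurd hst h12
  · exact absurd hst.symm h02
  · exact absurd hst.symm h12
  · rfl

theorem not_ergodic (hn : 3 ≤ n) : ¬ WSKErgodic (kagome n) 3 := by
  have : NeZero n := ⟨by omega⟩
  intro h
  obtain ⟨c₀, h₀, e₀⟩ := exists_coloring (n := n) (by omega) (fun _ t => t)
    (fun _ => Function.injective_id) (fun _ => Function.injective_id)
  obtain ⟨c₁, h₁, e₁⟩ := exists_coloring (n := n) (by omega) (f₁ n) (fun x => code_inj _ _ _)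
    (fun y => inj3 (f₁_spec hn y).1.1 (f₁_spec hn y).1.2.1 (f₁_spec hn y).1.2.2)
  have h2 := T_reach (by omega) (h (toCol c₀ h₀) (toCol c₁ h₁))
  have h3 : (fun x t => toCol c₁ h₁ (ed x t)) = f₁ n := by
    funext x t
    exact e₁ x t
  have h4 : (fun (x : Z n) t => toCol c₀ h₀ (ed x t)) = fun _ t => t := by
    funext x t
    exact e₀ x t
  rw [h3, h4, T_f₁ hn, T_f₀] at h2
  exact absurd h2 (by decide)

/-! ### the case `n = 2` -/

theorem all_Z2 (Q : Z 2 → Prop) (h00 : Q (0, 0)) (h10 : Q (1, 0)) (h01 : Q (0, 1))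
    (h11 : Q (1, 1)) : ∀ x, Q x := by
  rintro ⟨x, y⟩
  fin_cases x <;> fin_cases y <;> assumption

theorem all_3 (Q : Fin 3 → Prop) (h0 : Q 0) (h1 : Q 1) (h2 : Q 2) : ∀ t, Q t := by
  intro t
  fin_cases t <;> assumption

def P (m : Fin 3) (x : Z 2) : Prop :=
  if m = 2 then x.2 = 1 else if m = 1 then x.1 = 1 else x.1 + x.2 = 1

instance (m : Fin 3) (x : Z 2) : Decidable (P m x) := by
  unfold P
  infer_instance

def aa (m : Fin 3) : Fin 3 := if m = 0 then 1 else 0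
def bb (m : Fin 3) : Fin 3 := if m = 2 then 1 else 2

theorem aabb : ∀ m : Fin 3, aa m ≠ bb m ∧ aa m ≠ m ∧ bb m ≠ m := by decide
theorem sw_m : ∀ m : Fin 3, Equiv.swap (aa m) (bb m) m = m := by decide
theorem ne_m : ∀ m t : Fin 3, t ≠ m → t = aa m ∨ t = bb m := by decide
theorem sw_ne : ∀ m t : Fin 3, t ≠ m →
    Equiv.swap (aa m) (bb m) t = aa m ∨ Equiv.swap (aa m) (bb m) t = bb m := by decide

theorem P_closed : ∀ m t t' : Fin 3, ∀ x x' : Z 2, P m x → t ≠ m → t' ≠ m →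
    (x = x' ∨ x - dl 2 t = x' - dl 2 t') → P m x' := by
  intro m t t'
  refine all_Z2 _ ?_ ?_ ?_ ?_ <;> refine all_Z2 _ ?_ ?_ ?_ ?_ <;> revert m t t' <;> decide

def Hyp (a0 a1 a2 b0 b1 b2 d0 d1 d2 : Fin 3) : Prop :=
  (a0 ≠ a1 ∧ a0 ≠ a2 ∧ a1 ≠ a2) ∧ (b0 ≠ b1 ∧ b0 ≠ b2 ∧ b1 ≠ b2) ∧ (d0 ≠ d1 ∧ d0 ≠ d2 ∧ d1 ≠ d2) ∧
    (0 ≠ a1 ∧ 0 ≠ b2 ∧ a1 ≠ b2) ∧ (a0 ≠ 1 ∧ a0 ≠ d2 ∧ 1 ≠ d2) ∧ (b0 ≠ d1 ∧ b0 ≠ 2 ∧ d1 ≠ 2) ∧
    (d0 ≠ b1 ∧ d0 ≠ a2 ∧ b1 ≠ a2)

instance (a0 a1 a2 b0 b1 b2 d0 d1 d2 : Fin 3) : Decidable (Hyp a0 a1 a2 b0 b1 b2 d0 d1 d2) := by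
  unfold Hyp
  infer_instance

def Con (m a0 a1 a2 b0 b1 b2 d0 d1 d2 : Fin 3) : Prop :=
  let g : Z 2 → Fin 3 → Fin 3 := fun x t => if P m x then Equiv.swap (aa m) (bb m) t else t
  (a0 = g (1, 0) 0 ∧ a1 = g (1, 0) 1 ∧ a2 = g (1, 0) 2) ∧
  (b0 = g (0, 1) 0 ∧ b1 = g (0, 1) 1 ∧ b2 = g (0, 1) 2) ∧
  (d0 = g (1, 1) 0 ∧ d1 = g (1, 1) 1 ∧ d2 = g (1, 1) 2)

instance (m a0 a1 a2 b0 b1 b2 d0 d1 d2 : Fin 3) : Decidable (Con m a0 a1 a2 b0 b1 b2 d0 d1 d2) := by
  unfold Con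
  infer_instance

def Con0 (a0 a1 a2 b0 b1 b2 d0 d1 d2 : Fin 3) : Prop :=
  (a0 = 0 ∧ a1 = 1 ∧ a2 = 2) ∧ (b0 = 0 ∧ b1 = 1 ∧ b2 = 2) ∧ (d0 = 0 ∧ d1 = 1 ∧ d2 = 2)

instance (a0 a1 a2 b0 b1 b2 d0 d1 d2 : Fin 3) : Decidable (Con0 a0 a1 a2 b0 b1 b2 d0 d1 d2) := by
  unfold Con0
  infer_instance

theorem fin9 : ∀ a0 a1 a2 b0 b1 b2 d0 d1 d2 : Fin 3, Hyp a0 a1 a2 b0 b1 b2 d0 d1 d2 →
    Con0 a0 a1 a2 b0 b1 b2 d0 d1 d2 ∨ Con 0 a0 a1 a2 b0 b1 b2 d0 d1 d2 ∨
      Con 1 a0 a1 a2 b0 b1 b2 d0 d1 d2 ∨ Con 2 a0 a1 a2 b0 b1 b2 d0 d1 d2 := by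
  decide +kernel

theorem P00 : ∀ m : Fin 3, ¬ P m (0, 0) := by decide

theorem const_or (g : Z 2 → Fin 3 → Fin 3) (h0 : g (0, 0) 0 = 0 ∧ g (0, 0) 1 = 1 ∧ g (0, 0) 2 = 2)
    (hA : ∀ x, g x 0 ≠ g x 1 ∧ g x 0 ≠ g x 2 ∧ g x 1 ≠ g x 2)
    (hB : ∀ y, g (y + dl 2 0) 0 ≠ g (y + dl 2 1) 1 ∧ g (y + dl 2 0) 0 ≠ g (y + dl 2 2) 2 ∧
      g (y + dl 2 1) 1 ≠ g (y + dl 2 2) 2) :
    (∀ x t, g x t = t) ∨
      ∃ m, ∀ x t, g x t = if P m x then Equiv.swap (aa m) (bb m) t else t := by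
  have hB00 := hB (0, 0)
  have hB10 := hB (1, 0)
  have hB01 := hB (0, 1)
  have hB11 := hB (1, 1)
  rw [shift0, shift1, shift2] at hB00 hB10 hB01 hB11
  have e00 : ((0 : ZMod 2) + 1) = 1 := by decide
  have e11 : ((1 : ZMod 2) + 1) = 0 := by decide
  simp only [e00, e11] at hB00 hB10 hB01 hB11
  obtain ⟨h00, h01, h02⟩ := h0
  rw [h00] at hB00
  rw [h01] at hB10
  rw [h02] at hB01
  have hg : ∀ m, Con m (g (1, 0) 0) (g (1, 0) 1) (g (1, 0) 2) (g (0, 1) 0) (g (0, 1) 1) (g (0, 1) 2)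
      (g (1, 1) 0) (g (1, 1) 1) (g (1, 1) 2) →
      ∀ x t, g x t = if P m x then Equiv.swap (aa m) (bb m) t else t := by
    intro m hm
    obtain ⟨⟨h1, h2, h3⟩, ⟨h4, h5, h6⟩, h7, h8, h9⟩ := hm
    have hP := P00 m
    refine all_Z2 _ ?_ (all_3 _ h1 h2 h3) (all_3 _ h4 h5 h6) (all_3 _ h7 h8 h9)
    refine all_3 _ ?_ ?_ ?_
    · rw [if_neg hP, h00]
    · rw [if_neg hP, h01]
    · rw [if_neg hP, h02]
  rcases fin9 (g (1, 0) 0) (g (1, 0) 1) (g (1, 0) 2) (g (0, 1) 0) (g (0, 1) 1) (g (0, 1) 2)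
      (g (1, 1) 0) (g (1, 1) 1) (g (1, 1) 2) ⟨hA _, hA _, hA _, hB00, hB10, hB01, hB11⟩ with
    h | h | h | h
  · left
    obtain ⟨⟨h1, h2, h3⟩, ⟨h4, h5, h6⟩, h7, h8, h9⟩ := h
    exact all_Z2 _ (all_3 _ h00 h01 h02) (all_3 _ h1 h2 h3) (all_3 _ h4 h5 h6) (all_3 _ h7 h8 h9)
  · exact Or.inr ⟨0, hg 0 h⟩
  · exact Or.inr ⟨1, hg 1 h⟩
  · exact Or.inr ⟨2, hg 2 h⟩

theorem ergodic_two : WSKErgodic (kagome 2) 3 := by
  have hfin : Finite (honeycomb 2).edgeSet := by
    have : Finite (Z 2 ⊕ Z 2) := inferInstance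
    infer_instance
  obtain ⟨base, hb, eb⟩ := exists_coloring (n := 2) le_rfl (fun _ t => t)
    (fun _ => Function.injective_id) (fun _ => Function.injective_id)
  refine ergodic_of_conn (base := base) fun c hc => ?_
  have h01 : (0 : Fin 3) ≠ 1 := by decide
  have h02 : (0 : Fin 3) ≠ 2 := by decide
  have h12 : (1 : Fin 3) ≠ 2 := by decide
  -- normalize the colours at the vertex `((0, 0), A)`
  have hinj : Function.Injective fun t => c (ed (n := 2) (0, 0) t) :=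
    inj3 (hc _ _ (adjA le_rfl _ h01)) (hc _ _ (adjA le_rfl _ h02)) (hc _ _ (adjA le_rfl _ h12))
  let π : Equiv.Perm (Fin 3) := (Equiv.ofBijective _ (Finite.injective_iff_bijective.1 hinj)).symm
  have hπ : ∀ t, π (c (ed (n := 2) (0, 0) t)) = t := fun t =>
    (Equiv.ofBijective _ (Finite.injective_iff_bijective.1 hinj)).symm_apply_apply t
  refine (Conn.perm hc π).trans ?_
  have hg := proper_perm hc π
  set g : (honeycomb 2).edgeSet → Fin 3 := fun e => π (c e) with hgdef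
  rcases const_or (fun x t => g (ed x t)) ⟨hπ 0, hπ 1, hπ 2⟩
    (fun x => ⟨hg _ _ (adjA le_rfl x h01), hg _ _ (adjA le_rfl x h02), hg _ _ (adjA le_rfl x h12)⟩)
    (fun y => ⟨hg _ _ (adjB le_rfl y h01), hg _ _ (adjB le_rfl y h02), hg _ _ (adjB le_rfl y h12)⟩)
    with h | ⟨m, h⟩
  · have : g = base := by
      funext e
      obtain ⟨x, t, rfl⟩ := ed_surj e
      rw [eb]
      exact h x t
    rw [this]
    exact Conn.refl hb
  · refine conn_of_closed hg (aabb m).1 (U := {e | ∃ x t, e = ed x t ∧ P m x ∧ t ≠ m})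
      ⟨?_, ?_⟩ ⟨?_, ?_⟩
    · rintro e ⟨x, t, rfl, hP, ht⟩
      rw [h x t, if_pos hP]
      exact sw_ne m t ht
    · rintro e ⟨x, t, rfl, hP, ht⟩ e' hadj he'
      obtain ⟨x', t', rfl⟩ := ed_surj e'
      have hadj' := ((adj_iff x x' t t').1 hadj).2
      have ht' : t' ≠ m := by
        rintro rfl
        rw [h x' t'] at he'
        have h1 := aabb t'
        split_ifs at he' with hP'
        · rw [sw_m] at he'
          rcases he' with he' | he'
          · exact h1.2.1 he'.symm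
          · exact h1.2.2 he'.symm
        · rcases he' with he' | he'
          · exact h1.2.1 he'.symm
          · exact h1.2.2 he'.symm
      exact ⟨x', t', rfl, P_closed m t t' x x' hP ht ht' hadj', ht'⟩
    · rintro e ⟨x, t, rfl, hP, ht⟩
      rw [h x t, if_pos hP, eb, Equiv.swap_apply_self]
    · intro e he
      obtain ⟨x, t, rfl⟩ := ed_surj e
      rw [h x t, eb]
      by_cases hP : P m x
      · rw [if_pos hP]
        by_cases ht : t = m
        · rw [ht, sw_m]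
        · exact absurd ⟨x, t, rfl, hP, ht⟩ he
      · rw [if_neg hP]

/-! ### the honeycomb graph is cubic and bipartite -/

theorem adj_inl (x : Z n) (v : Z n ⊕ Z n) : (honeycomb n).Adj (Sum.inl x) v ↔
    ∃ t, v = Sum.inr (x - dl n t) := by
  constructor
  · intro h
    obtain ⟨x', t, he⟩ := ed_surj ⟨s(Sum.inl x, v), h⟩
    have h1 : s((Sum.inl x' : Z n ⊕ Z n), Sum.inr (x' - dl n t)) = s(Sum.inl x, v) :=
      congrArg Subtype.val he
    rw [Sym2.eq_iff] at h1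
    rcases h1 with ⟨h1, h2⟩ | ⟨-, h2⟩
    · rw [← h2, Sum.inl_injective h1]
      exact ⟨t, rfl⟩
    · cases h2
  · rintro ⟨t, rfl⟩
    exact honey_adj x t

theorem adj_inr (y : Z n) (v : Z n ⊕ Z n) : (honeycomb n).Adj (Sum.inr y) v ↔
    ∃ t, v = Sum.inl (y + dl n t) := by
  constructor
  · intro h
    obtain ⟨x', t, he⟩ := ed_surj ⟨s(v, Sum.inr y), h.symm⟩
    have h1 : s((Sum.inl x' : Z n ⊕ Z n), Sum.inr (x' - dl n t)) = s(v, Sum.inr y) :=
      congrArg Subtype.val he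
    rw [Sym2.eq_iff] at h1
    rcases h1 with ⟨h1, h2⟩ | ⟨h1, -⟩
    · refine ⟨t, ?_⟩
      rw [← h1, ← Sum.inr_injective h2, sub_add_cancel]
    · cases h1
  · rintro ⟨t, rfl⟩
    have := honey_adj (y + dl n t) t
    rw [add_sub_cancel_right] at this
    exact this.symm

theorem cubic (hn : 2 ≤ n) (v : Z n ⊕ Z n) : {w | (honeycomb n).Adj v w}.ncard = 3 := by
  have h3 : (Set.univ : Set (Fin 3)).ncard = 3 := by
    rw [Set.ncard_univ, Nat.card_eq_fintype_card, Fintype.card_fin]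
  rcases v with x | y
  · have h : {w | (honeycomb n).Adj (Sum.inl x) w} =
        (fun t => (Sum.inr (x - dl n t) : Z n ⊕ Z n)) '' Set.univ := by
      ext w
      rw [Set.image_univ, Set.mem_range]
      exact (adj_inl x w).trans ⟨fun ⟨t, ht⟩ => ⟨t, ht.symm⟩, fun ⟨t, ht⟩ => ⟨t, ht.symm⟩⟩
    rw [h, Set.ncard_image_of_injective _ fun s t hst =>
      dl_inj hn (sub_right_injective (Sum.inr_injective hst)), h3]
  · have h : {w | (honeycomb n).Adj (Sum.inr y) w} =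
        (fun t => (Sum.inl (y + dl n t) : Z n ⊕ Z n)) '' Set.univ := by
      ext w
      rw [Set.image_univ, Set.mem_range]
      exact (adj_inr y w).trans ⟨fun ⟨t, ht⟩ => ⟨t, ht.symm⟩, fun ⟨t, ht⟩ => ⟨t, ht.symm⟩⟩
    rw [h, Set.ncard_image_of_injective _ fun s t hst =>
      dl_inj hn (add_right_injective y (Sum.inl_injective hst)), h3]

theorem bipartite : (honeycomb n).Colorable 2 := by
  refine ⟨SimpleGraph.Coloring.mk (fun v => Sum.elim (fun _ => 0) (fun _ => 1) v) ?_⟩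
  rintro (x | x) w h
  · obtain ⟨t, rfl⟩ := (adj_inl x w).1 h
    simp
  · obtain ⟨t, rfl⟩ := (adj_inr x w).1 h
    simp

/-- **Theorem.** For `n ≥ 2` the `n × n` periodic honeycomb graph is cubic and bipartite, and any two
of its proper 3-edge-colourings (the proper 3-colourings of its line graph `kagome n`) are joined by
Kempe changes if and only if `n = 2`. -/
theorem result : ∀ n : ℕ, 2 ≤ n → (∀ v, {w | (honeycomb n).Adj v w}.ncard = 3) ∧
    (honeycomb n).Colorable 2 ∧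
    ((∀ c c' : (honeycomb n).lineGraph.Coloring (Fin 3), Relation.ReflTransGen KempeStep c c') ↔
      n = 2) := by
  intro n hn
  refine ⟨cubic hn, bipartite, ?_⟩
  constructor
  · intro h
    by_contra hne
    exact not_ergodic (by omega) h
  · rintro rfl
    exact ergodic_two

end Pool.Agent.Results.MP_7c0803_co.HoneycombTori
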