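import Pool.Agent.Results.MP_7c0803_co.SignInvariant

/-!
# Kempe classes of edge colourings of regular bipartite graphs: relative orientation and covers

Two proper `k`-edge-colourings `c`, `c₀` of a `k`-regular bipartite graph differ at each vertex by a
permutation of the colours. The product of the signs of these permutations (the quotient of the signs
of the colourings, see `SignInvariant`) is multiplicative for covers, so a cover of odd degree of a
graph with two colourings of different sign has at least two Kempe classes.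
-/

set_option autoImplicit false

namespace Pool.Agent.Results.MP_7c0803_co.OddCovers

open Equiv Equiv.Perm
open Pool.Agent.Results.MP_7c0803_co.SignInvariant

variable {A B : Type} {k : ℕ} {R : A → B → Prop}

/-- `π` maps the colour in `c` to the colour in `c₀` for each edge at the vertex `a` -/
def LocA (c c₀ : Edge R → Fin k) (a : A) (π : Perm (Fin k)) : Prop :=
  ∀ (b : B) (h : R a b), π (c ⟨(a, b), h⟩) = c₀ ⟨(a, b), h⟩

/-- `π` maps the colour in `c` to the colour in `c₀` for each edge at the vertex `b` -/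
def LocB (c c₀ : Edge R → Fin k) (b : B) (π : Perm (Fin k)) : Prop :=
  ∀ (a : A) (h : R a b), π (c ⟨(a, b), h⟩) = c₀ ⟨(a, b), h⟩

theorem exists_locA (hR : Regular R k) {c c₀ : Edge R → Fin k} (hc : Proper c) (h₀ : Proper c₀)
    (a : A) : ∃ π : Perm (Fin k), LocA c c₀ a π := by
  choose f hf hfx using fun x => mateA hR hc a x
  have hinj : Function.Injective fun x => c₀ ⟨(a, f x), hf x⟩ := by
    intro x y hxy
    have h1 : f x = f y := h₀.uniqueA (hf x) (hf y) hxy
    have h2 := hfx y
    rw [← hfx x]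
    rw [← h2]
    congr 3
  refine ⟨Equiv.ofBijective _ (Finite.injective_iff_bijective.1 hinj), fun b h => ?_⟩
  rw [Equiv.ofBijective_apply]
  have h1 : f (c ⟨(a, b), h⟩) = b := hc.uniqueA (hf _) h (hfx _)
  congr 3

theorem exists_locB (hR : Regular R k) {c c₀ : Edge R → Fin k} (hc : Proper c) (h₀ : Proper c₀)
    (b : B) : ∃ π : Perm (Fin k), LocB c c₀ b π := by
  choose f hf hfx using fun x => mateB hR hc b x
  have hinj : Function.Injective fun x => c₀ ⟨(f x, b), hf x⟩ := by
    intro x y hxy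
    have h1 : f x = f y := h₀.uniqueB (hf x) (hf y) hxy
    have h2 := hfx y
    rw [← hfx x]
    rw [← h2]
    congr 3
  refine ⟨Equiv.ofBijective _ (Finite.injective_iff_bijective.1 hinj), fun a h => ?_⟩
  rw [Equiv.ofBijective_apply]
  have h1 : f (c ⟨(a, b), h⟩) = a := hc.uniqueB (hf _) h (hfx _)
  congr 3

theorem locA_unique (hR : Regular R k) {c c₀ : Edge R → Fin k} (hc : Proper c) {a : A}
    {π π' : Perm (Fin k)} (h : LocA c c₀ a π) (h' : LocA c c₀ a π') : π = π' := by
  ext x
  obtain ⟨b, hb, hx⟩ := mateA hR hc a x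
  rw [← hx, h b hb, h' b hb]

theorem locB_unique (hR : Regular R k) {c c₀ : Edge R → Fin k} (hc : Proper c) {b : B}
    {π π' : Perm (Fin k)} (h : LocB c c₀ b π) (h' : LocB c c₀ b π') : π = π' := by
  ext x
  obtain ⟨a, ha, hx⟩ := mateB hR hc b x
  rw [← hx, h a ha, h' a ha]

/-- the relative orientation -/
def Ori [Fintype A] [Fintype B] (πA : A → Perm (Fin k)) (πB : B → Perm (Fin k)) : ℤˣ :=
  (∏ a, sign (πA a)) * ∏ b, sign (πB b)

/-- **the relative orientation is a Kempe invariant** -/
theorem ori_kempe [Fintype A] [Fintype B] (hR : Regular R k) {c c' c₀ : Edge R → Fin k}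
    (hc : Proper c) (hc' : Proper c') {πA πA' : A → Perm (Fin k)} {πB πB' : B → Perm (Fin k)}
    (hA : ∀ a, LocA c c₀ a (πA a)) (hB : ∀ b, LocB c c₀ b (πB b))
    (hA' : ∀ a, LocA c' c₀ a (πA' a)) (hB' : ∀ b, LocB c' c₀ b (πB' b)) (hk : KempeChange c c') :
    Ori πA' πB' = Ori πA πB := by
  classical
  obtain ⟨σ, h⟩ := exists_matches hR hc
  obtain ⟨x, y, hxy, e₀, he₀, hin, hout⟩ := hk
  set P : A → Prop := fun a => SameComp c x y e₀ ⟨(a, σ x a), (h.edge x a).1⟩ with hP
  -- an edge of the colour `x` or `y` at `a` is in the component iff `P a`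
  have key : ∀ f g : Edge R, Touch f g → (c f = x ∨ c f = y) → (c g = x ∨ c g = y) →
      (SameComp c x y e₀ f ↔ SameComp c x y e₀ g) := by
    intro f g ht hf hg
    constructor
    · intro hs
      exact hs.tail ⟨hf, hg, ht⟩
    · intro hs
      refine hs.tail ⟨hg, hf, ?_⟩
      rcases ht with ht | ht
      · exact Or.inl ht.symm
      · exact Or.inr ht.symm
  have hnew : ∀ f g : Edge R, Touch f g → (c g = x ∨ c g = y) →
      c' f = if SameComp c x y e₀ g then Equiv.swap x y (c f) else c f := by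
    intro f g ht hg
    by_cases hf : c f = x ∨ c f = y
    · by_cases hs : SameComp c x y e₀ g
      · rw [if_pos hs, hin f ((key f g ht hf hg).2 hs)]
      · rw [if_neg hs, hout f fun h' => hs ((key f g ht hf hg).1 h')]
    · have h1 : Equiv.swap x y (c f) = c f := by
        rw [not_or] at hf
        exact Equiv.swap_apply_of_ne_of_ne hf.1 hf.2
      rw [h1, ite_self]
      exact hout f fun h' => hf (h'.color he₀)
  have hpA : ∀ a, sign (πA' a) = sign (πA a) * (if P a then -1 else 1) := by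
    intro a
    by_cases hPa : P a
    · have h1 : πA' a = πA a * Equiv.swap x y := by
        refine locA_unique hR hc' (hA' a) fun b hb => ?_
        have h2 := hnew ⟨(a, b), hb⟩ ⟨(a, σ x a), (h.edge x a).1⟩ (Or.inl rfl)
          (Or.inl (h.edge x a).2)
        rw [if_pos hPa] at h2
        rw [h2, Equiv.Perm.mul_apply, Equiv.swap_apply_self, hA a b hb]
      rw [if_pos hPa, h1, Equiv.Perm.sign_mul, Equiv.Perm.sign_swap hxy]
    · have h1 : πA' a = πA a := by
        refine locA_unique hR hc' (hA' a) fun b hb => ?_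
        have h2 := hnew ⟨(a, b), hb⟩ ⟨(a, σ x a), (h.edge x a).1⟩ (Or.inl rfl)
          (Or.inl (h.edge x a).2)
        rw [if_neg hPa] at h2
        rw [h2, hA a b hb]
      rw [if_neg hPa, h1, mul_one]
  have hpB : ∀ a, sign (πB' (σ x a)) = sign (πB (σ x a)) * (if P a then -1 else 1) := by
    intro a
    by_cases hPa : P a
    · have h1 : πB' (σ x a) = πB (σ x a) * Equiv.swap x y := by
        refine locB_unique hR hc' (hB' _) fun a' hb => ?_
        have h2 := hnew ⟨(a', σ x a), hb⟩ ⟨(a, σ x a), (h.edge x a).1⟩ (Or.inr rfl)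
          (Or.inl (h.edge x a).2)
        rw [if_pos hPa] at h2
        rw [h2, Equiv.Perm.mul_apply, Equiv.swap_apply_self, hB _ a' hb]
      rw [if_pos hPa, h1, Equiv.Perm.sign_mul, Equiv.Perm.sign_swap hxy]
    · have h1 : πB' (σ x a) = πB (σ x a) := by
        refine locB_unique hR hc' (hB' _) fun a' hb => ?_
        have h2 := hnew ⟨(a', σ x a), hb⟩ ⟨(a, σ x a), (h.edge x a).1⟩ (Or.inr rfl)
          (Or.inl (h.edge x a).2)
        rw [if_neg hPa] at h2
        rw [h2, hB _ a' hb]
      rw [if_neg hPa, h1, mul_one]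
  rw [Ori, Ori, ← Equiv.prod_comp (σ x) fun b => sign (πB' b),
    ← Equiv.prod_comp (σ x) fun b => sign (πB b), Finset.prod_congr rfl fun a _ => hpA a,
    Finset.prod_congr rfl fun a _ => hpB a, Finset.prod_mul_distrib, Finset.prod_mul_distrib,
    mul_mul_mul_comm, Int.units_mul_self, mul_one]

theorem two_le_of_ori [Fintype A] [Fintype B] (hR : Regular R k) {c c₀ : Edge R → Fin k}
    (hc : Proper c) (h₀ : Proper c₀) {πA : A → Perm (Fin k)} {πB : B → Perm (Fin k)}
    (hA : ∀ a, LocA c c₀ a (πA a)) (hB : ∀ b, LocB c c₀ b (πB b)) (ho : Ori πA πB = -1) :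
    2 ≤ Kc R k := by
  classical
  choose mA hmA using fun (d : {c : Edge R → Fin k // Proper c}) a => exists_locA hR d.2 h₀ a
  choose mB hmB using fun (d : {c : Edge R → Fin k // Proper c}) b => exists_locB hR d.2 h₀ b
  let F : Quot (fun c c' : {c : Edge R → Fin k // Proper c} => KempeChange c.1 c'.1) → ℤˣ :=
    Quot.lift (fun d => Ori (mA d) (mB d)) fun d d' hk =>
      (ori_kempe hR d.2 d'.2 (hmA d) (hmB d) (hmA d') (hmB d') hk).symm
  have hfin := finite_quot (R := R) (k := k)
  have h1 : Quot.mk (fun c c' : {c : Edge R → Fin k // Proper c} => KempeChange c.1 c'.1) ⟨c, hc⟩ ≠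
      Quot.mk _ ⟨c₀, h₀⟩ := by
    intro heq
    have h2 := congrArg F heq
    change Ori (mA ⟨c, hc⟩) (mB ⟨c, hc⟩) = Ori (mA ⟨c₀, h₀⟩) (mB ⟨c₀, h₀⟩) at h2
    have e1 : mA ⟨c, hc⟩ = πA := funext fun a => locA_unique hR hc (hmA _ a) (hA a)
    have e2 : mB ⟨c, hc⟩ = πB := funext fun b => locB_unique hR hc (hmB _ b) (hB b)
    have e3 : mA ⟨c₀, h₀⟩ = fun _ => 1 :=
      funext fun a => locA_unique hR h₀ (hmA _ a) fun b hb => rfl
    have e4 : mB ⟨c₀, h₀⟩ = fun _ => 1 :=
      funext fun b => locB_unique hR h₀ (hmB _ b) fun a ha => rfl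
    rw [e1, e2, e3, e4, ho, Ori] at h2
    simp at h2
  have : Nontrivial (Quot fun c c' : {c : Edge R → Fin k // Proper c} => KempeChange c.1 c'.1) :=
    ⟨⟨_, _, h1⟩⟩
  exact Finite.one_lt_card

/-! ### covers -/

/-- `(pA, pB)` is a covering map from the graph `R'` to the graph `R` whose fibres have `d` elements -/
structure Cover {A' B' : Type} (R' : A' → B' → Prop) (R : A → B → Prop) (pA : A' → A)
    (pB : B' → B) (d : ℕ) : Prop where
  hom : ∀ a' b', R' a' b' → R (pA a') (pB b')
  liftA : ∀ a' b, R (pA a') b → ∃! b', R' a' b' ∧ pB b' = b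
  liftB : ∀ b' a, R a (pB b') → ∃! a', R' a' b' ∧ pA a' = a
  fibA : ∀ a, {a' | pA a' = a}.ncard = d
  fibB : ∀ b, {b' | pB b' = b}.ncard = d

variable {A' B' : Type} {R' : A' → B' → Prop} {pA : A' → A} {pB : B' → B} {d : ℕ}

theorem Cover.regular (H : Cover R' R pA pB d) (hR : Regular R k) : Regular R' k := by
  constructor
  · intro a'
    have h1 : pB '' {b' | R' a' b'} = {b | R (pA a') b} := by
      ext b
      constructor
      · rintro ⟨b', hb', rfl⟩
        exact H.hom _ _ hb'
      · intro hb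
        obtain ⟨b', ⟨h2, h3⟩, -⟩ := H.liftA a' b hb
        exact ⟨b', h2, h3⟩
    rw [← hR.1 (pA a'), ← h1]
    refine (Set.InjOn.ncard_image fun b₁ h₁ b₂ h₂ he => ?_).symm
    exact (H.liftA a' (pB b₂) (H.hom _ _ h₂)).unique ⟨h₁, he⟩ ⟨h₂, rfl⟩
  · intro b'
    have h1 : pA '' {a' | R' a' b'} = {a | R a (pB b')} := by
      ext a
      constructor
      · rintro ⟨a', ha', rfl⟩
        exact H.hom _ _ ha'
      · intro ha
        obtain ⟨a', ⟨h2, h3⟩, -⟩ := H.liftB b' a ha
        exact ⟨a', h2, h3⟩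
    rw [← hR.2 (pB b'), ← h1]
    refine (Set.InjOn.ncard_image fun a₁ h₁ a₂ h₂ he => ?_).symm
    exact (H.liftB b' (pA a₂) (H.hom _ _ h₂)).unique ⟨h₁, he⟩ ⟨h₂, rfl⟩

/-- the lift of a colouring -/
def Cover.lift (H : Cover R' R pA pB d) (c : Edge R → Fin k) : Edge R' → Fin k :=
  fun f => c ⟨(pA f.1.1, pB f.1.2), H.hom _ _ f.2⟩

theorem Cover.proper (H : Cover R' R pA pB d) {c : Edge R → Fin k} (hc : Proper c) :
    Proper (H.lift c) := by
  rintro ⟨⟨a, b⟩, hf⟩ ⟨⟨a', b'⟩, hg⟩ hne ht
  refine hc _ _ (fun heq => hne ?_) ?_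
  · have h1 : pA a = pA a' := congrArg (fun e : Edge R => e.1.1) heq
    have h2 : pB b = pB b' := congrArg (fun e : Edge R => e.1.2) heq
    rcases ht with ht | ht
    · change a = a' at ht
      subst ht
      have := (H.liftA a (pB b') (H.hom _ _ hg)).unique ⟨hf, h2⟩ ⟨hg, rfl⟩
      subst this
      rfl
    · change b = b' at ht
      subst ht
      have := (H.liftB b (pA a') (H.hom _ _ hg)).unique ⟨hf, h1⟩ ⟨hg, rfl⟩
      subst this
      rfl
  · rcases ht with ht | ht
    · exact Or.inl (congrArg pA ht)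
    · exact Or.inr (congrArg pB ht)

theorem prod_fib {X Y : Type} [Fintype X] [Fintype Y] (p : X → Y) (d : ℕ)
    (h : ∀ y, {x | p x = y}.ncard = d) (u : Y → ℤˣ) : ∏ x, u (p x) = (∏ y, u y) ^ d := by
  classical
  rw [← Finset.prod_fiberwise Finset.univ p, ← Finset.prod_pow]
  refine Finset.prod_congr rfl fun y _ => ?_
  rw [Finset.prod_congr rfl fun x hx => by rw [(Finset.mem_filter.1 hx).2], Finset.prod_const,
    ← h y, Set.ncard_eq_toFinset_card']
  congr 2
  ext x
  simp

theorem cover_two_le [Fintype A] [Fintype B] [Fintype A'] [Fintype B'] (hR : Regular R k)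
    {c c₀ : Edge R → Fin k} (hc : Proper c) (h₀ : Proper c₀) {πA : A → Perm (Fin k)}
    {πB : B → Perm (Fin k)} (hA : ∀ a, LocA c c₀ a (πA a)) (hB : ∀ b, LocB c c₀ b (πB b))
    (ho : Ori πA πB = -1) (hd : Odd d) (H : Cover R' R pA pB d) : 2 ≤ Kc R' k := by
  refine two_le_of_ori (H.regular hR) (H.proper hc) (H.proper h₀) (πA := fun a' => πA (pA a'))
    (πB := fun b' => πB (pB b')) (fun a' b' h => hA _ _ _) (fun b' a' h => hB _ _ _) ?_
  rw [Ori, prod_fib pA d H.fibA fun a => sign (πA a), prod_fib pB d H.fibB fun b => sign (πB b),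
    ← mul_pow]
  change Ori πA πB ^ d = -1
  rw [ho, hd.neg_one_pow]

/-- every covering graph of odd degree has at least two Kempe classes -/
def OddCoverKc (R : A → B → Prop) (k : ℕ) : Prop :=
  ∀ (A' B' : Type) [Fintype A'] [Fintype B'] (R' : A' → B' → Prop) (pA : A' → A) (pB : B' → B)
    (d : ℕ), Odd d → Cover R' R pA pB d → 2 ≤ Kc R' k

/-- the relative orientation is the quotient of the signs of the colourings -/
theorem ori_of_sgn [Fintype A] [DecidableEq A] [Fintype B] (e : B ≃ A) {c c₀ : Edge R → Fin k}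
    {σ σ₀ : Fin k → (A ≃ B)} (h : Matches c σ) (h₀ : Matches c₀ σ₀) {πA : A → Perm (Fin k)}
    {πB : B → Perm (Fin k)} (hA : ∀ a, LocA c c₀ a (πA a)) (hB : ∀ b, LocB c c₀ b (πB b))
    (hne : Sgn e σ ≠ Sgn e σ₀) : Ori πA πB = -1 := by
  have hkey : (Equiv.prodCongrLeft fun x => (σ₀ x).trans e) * Equiv.prodCongrRight πA =
      (Equiv.prodCongrRight fun a => πB (e.symm a)) *
        (Equiv.prodCongrLeft fun x => (σ x).trans e : Perm (A × Fin k)) := by
    refine Equiv.ext ?_
    rintro ⟨a, x⟩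
    obtain ⟨hR, hx⟩ := h.edge x a
    have h1 := hA a (σ x a) hR
    have h2 := hB (σ x a) a hR
    rw [hx] at h1 h2
    have h3 : σ₀ (πA a x) a = σ x a := (h₀ _ _ _).2 ⟨hR, h1.symm⟩
    rw [Equiv.Perm.mul_apply, Equiv.Perm.mul_apply, Equiv.prodCongrRight_apply,
      Equiv.prodCongrLeft_apply, Equiv.prodCongrLeft_apply, Equiv.prodCongrRight_apply,
      Equiv.trans_apply, Equiv.trans_apply, h3, Equiv.symm_apply_apply, h1, h2]
  have hs := congrArg sign hkey
  rw [Equiv.Perm.sign_mul, Equiv.Perm.sign_mul, Equiv.Perm.sign_prodCongrRight,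
    Equiv.Perm.sign_prodCongrRight, Equiv.Perm.sign_prodCongrLeft, Equiv.Perm.sign_prodCongrLeft,
    Equiv.prod_comp e.symm fun b => sign (πB b)] at hs
  change Sgn e σ₀ * _ = _ * Sgn e σ at hs
  rw [Ori]
  rcases Int.units_eq_one_or (∏ a, sign (πA a)) with h1 | h1 <;>
  rcases Int.units_eq_one_or (∏ b, sign (πB b)) with h2 | h2 <;>
  rcases Int.units_eq_one_or (Sgn e σ) with h3 | h3 <;>
  rcases Int.units_eq_one_or (Sgn e σ₀) with h4 | h4 <;>
  rw [h1, h2] <;> rw [h1, h2, h3, h4] at hs <;> rw [h3, h4] at hne <;> revert hs hne <;> decide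

/-- if two colourings have different signs then all covers of odd degree have at least two classes -/
theorem oddCoverKc [Fintype A] [DecidableEq A] [Fintype B] (e : B ≃ A) (hR : Regular R k)
    {c c' : Edge R → Fin k} (hc : Proper c) (hc' : Proper c') {σ σ' : Fin k → (A ≃ B)}
    (h : Matches c σ) (h' : Matches c' σ') (hne : Sgn e σ ≠ Sgn e σ') : OddCoverKc R k := by
  intro A' B' _ _ R' pA pB d hd H
  choose πA hA using exists_locA hR hc hc'
  choose πB hB using exists_locB hR hc hc'
  exact cover_two_le hR hc hc' hA hB (ori_of_sgn e h h' hA hB hne) hd H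

theorem ne_of_neg {u v : ℤˣ} (h : v = u * -1) : u ≠ v := by
  rcases Int.units_eq_one_or u with h1 | h1 <;> rw [h1] at h ⊢ <;> rw [h] <;> decide

theorem prod_neg {k : ℕ} (hk : Odd k) {u v : Fin k → ℤˣ} (h : ∀ x, v x = u x * -1) :
    ∏ x, v x = (∏ x, u x) * -1 := by
  rw [Finset.prod_congr rfl fun x _ => h x, Finset.prod_mul_distrib, Finset.prod_const,
    Finset.card_univ, Fintype.card_fin, hk.neg_one_pow]

/-- an automorphism which preserves the sides and is an odd permutation of the vertices -/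
theorem cover_of_automorphism [Fintype A] [DecidableEq A] [Fintype B] [DecidableEq B] (hk : Odd k)
    (hR : Regular R k) (φ : Perm A) (ψ : Perm B) (h : ∀ a b, R (φ a) (ψ b) ↔ R a b)
    (hodd : sign φ * sign ψ = -1) : OddCoverKc R k := by
  obtain ⟨c, hc⟩ := exists_proper hR
  obtain ⟨σ, hσ⟩ := exists_matches hR hc
  have hAB : Nonempty (B ≃ A) := by
    obtain ⟨x⟩ : Nonempty (Fin k) := ⟨⟨0, hk.pos⟩⟩
    exact ⟨(σ x).symm⟩
  obtain ⟨e⟩ := hAB
  let c' : Edge R → Fin k := fun f => c ⟨(φ f.1.1, ψ f.1.2), (h _ _).2 f.2⟩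
  have hc' : Proper c' := by
    intro f g hfg ht
    refine hc _ _ (fun heq => hfg ?_) ?_
    · have h1 : φ f.1.1 = φ g.1.1 := congrArg (fun e : Edge R => e.1.1) heq
      have h2 : ψ f.1.2 = ψ g.1.2 := congrArg (fun e : Edge R => e.1.2) heq
      exact Subtype.ext (Prod.ext (φ.injective h1) (ψ.injective h2))
    · rcases ht with ht | ht
      · exact Or.inl (congrArg φ ht)
      · exact Or.inr (congrArg ψ ht)
  let σ' : Fin k → (A ≃ B) := fun x => (φ.trans (σ x)).trans ψ.symm
  have hσ' : Matches c' σ' := by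
    intro x a b
    change ψ.symm (σ x (φ a)) = b ↔ _
    rw [Equiv.symm_apply_eq, hσ x]
    constructor
    · rintro ⟨h1, h2⟩
      exact ⟨(h a b).1 h1, h2⟩
    · rintro ⟨h1, h2⟩
      exact ⟨(h a b).2 h1, h2⟩
  refine oddCoverKc e hR hc hc' hσ hσ' (ne_of_neg (prod_neg hk fun x => ?_))
  have h1 : (σ' x).trans e = ((e.symm.trans ψ.symm).trans e) * ((σ x).trans e) * φ := by
    ext a
    simp [σ']
  rw [h1, Equiv.Perm.sign_mul, Equiv.Perm.sign_mul, Equiv.Perm.sign_symm_trans_trans,
    Equiv.Perm.sign_symm, ← hodd]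
  rw [mul_comm (sign ψ), mul_assoc, mul_comm (sign ψ)]

/-- an automorphism `(φ, ψ)` which exchanges the sides and whose square is an odd permutation of `A` -/
theorem cover_of_swap [Fintype A] [DecidableEq A] [Fintype B] (hk : Odd k)
    (hR : Regular R k) (φ : A ≃ B) (ψ : B ≃ A) (h : ∀ a b, R (ψ b) (φ a) ↔ R a b)
    (hodd : sign (φ.trans ψ) = -1) : OddCoverKc R k := by
  obtain ⟨c, hc⟩ := exists_proper hR
  obtain ⟨σ, hσ⟩ := exists_matches hR hc
  let c' : Edge R → Fin k := fun f => c ⟨(ψ f.1.2, φ f.1.1), (h _ _).2 f.2⟩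
  have hc' : Proper c' := by
    intro f g hfg ht
    refine hc _ _ (fun heq => hfg ?_) ?_
    · have h1 : ψ f.1.2 = ψ g.1.2 := congrArg (fun e : Edge R => e.1.1) heq
      have h2 : φ f.1.1 = φ g.1.1 := congrArg (fun e : Edge R => e.1.2) heq
      exact Subtype.ext (Prod.ext (φ.injective h2) (ψ.injective h1))
    · rcases ht with ht | ht
      · exact Or.inr (congrArg φ ht)
      · exact Or.inl (congrArg ψ ht)
  let σ' : Fin k → (A ≃ B) := fun x => (φ.trans (σ x).symm).trans ψ.symm
  have hσ' : Matches c' σ' := by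
    intro x a b
    change ψ.symm ((σ x).symm (φ a)) = b ↔ _
    rw [Equiv.symm_apply_eq, Equiv.symm_apply_eq, eq_comm, hσ x]
    constructor
    · rintro ⟨h1, h2⟩
      exact ⟨(h a b).1 h1, h2⟩
    · rintro ⟨h1, h2⟩
      exact ⟨(h a b).2 h1, h2⟩
  refine oddCoverKc ψ hR hc hc' hσ hσ' (ne_of_neg (prod_neg hk fun x => ?_))
  have h1 : (σ' x).trans ψ = ((σ x).trans ψ)⁻¹ * (φ.trans ψ) := by
    ext a
    simp [σ', Equiv.Perm.inv_def]
  rw [h1, Equiv.Perm.sign_mul, Equiv.Perm.sign_inv, hodd]

/-- two vertices with the same neighbours -/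
theorem cover_of_twins [Fintype A] [DecidableEq A] [Fintype B] [DecidableEq B] (hk : Odd k)
    (hR : Regular R k) {a a' : A} (hne : a ≠ a') (h : ∀ b, R a b ↔ R a' b) : OddCoverKc R k := by
  refine cover_of_automorphism hk hR (Equiv.swap a a') 1 (fun x b => ?_) ?_
  · rw [Equiv.Perm.one_apply]
    by_cases hx : x = a
    · rw [hx, Equiv.swap_apply_left, h]
    · by_cases hx' : x = a'
      · rw [hx', Equiv.swap_apply_right, h]
      · rw [Equiv.swap_apply_of_ne_of_ne hx hx']
  · rw [Equiv.Perm.sign_swap hne, Equiv.Perm.sign_one, mul_one]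

/-! ### covers of `K_{3,3}` -/

theorem sign_refl : ∀ i : Fin 3, sign (Equiv.subLeft (i + i)) = -1 := by decide
theorem sign_shift : ∀ j : Fin 3, sign (Equiv.addRight (j + j)) = 1 := by decide
theorem arith1 : ∀ i j : Fin 3, i + i - (i - j) = i + j := by decide
theorem arith2 : ∀ i j : Fin 3, i - j + (j + j) = i + j := by decide
theorem cancel1 : ∀ i j j' : Fin 3, i + j = i + j' → j = j' := by decide
theorem cancel2 : ∀ i i' j : Fin 3, i + j = i' + j → i = i' := by decide
theorem cancel3 : ∀ i j j' : Fin 3, i - j = i - j' → j = j' := by decide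
theorem cancel4 : ∀ i i' j : Fin 3, i - j = i' - j → i = i' := by decide

theorem k33 [Fintype A] [Fintype B] (i : A → Fin 3) (j : B → Fin 3)
    (hA : ∀ a t, ∃! b, R a b ∧ j b = t) (hB : ∀ b t, ∃! a, R a b ∧ i a = t)
    (hodd : Odd (Fintype.card A)) : 2 ≤ Kc R 3 := by
  have hR : Regular R 3 := by
    constructor
    · intro a
      have h1 : j '' {b | R a b} = Set.univ := by
        refine Set.eq_univ_of_forall fun t => ?_
        obtain ⟨b, ⟨h2, h3⟩, -⟩ := hA a t
        exact ⟨b, h2, h3⟩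
      have h2 := Set.InjOn.ncard_image (f := j) (s := {b | R a b}) fun b₁ h₁ b₂ h₂ he =>
        (hA a (j b₂)).unique ⟨h₁, he⟩ ⟨h₂, rfl⟩
      rw [← h2, h1, Set.ncard_univ, Nat.card_eq_fintype_card, Fintype.card_fin]
    · intro b
      have h1 : i '' {a | R a b} = Set.univ := by
        refine Set.eq_univ_of_forall fun t => ?_
        obtain ⟨a, ⟨h2, h3⟩, -⟩ := hB b t
        exact ⟨a, h2, h3⟩
      have h2 := Set.InjOn.ncard_image (f := i) (s := {a | R a b}) fun a₁ h₁ a₂ h₂ he =>
        (hB b (i a₂)).unique ⟨h₁, he⟩ ⟨h₂, rfl⟩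
      rw [← h2, h1, Set.ncard_univ, Nat.card_eq_fintype_card, Fintype.card_fin]
  have hc : Proper (fun f : Edge R => i f.1.1 - j f.1.2) := by
    rintro ⟨⟨a, b⟩, hf⟩ ⟨⟨a', b'⟩, hg⟩ hne ht heq
    apply hne
    change i a - j b = i a' - j b' at heq
    rcases ht with ht | ht
    · change a = a' at ht
      subst ht
      have := (hA a (j b')).unique ⟨hf, cancel3 _ _ _ heq⟩ ⟨hg, rfl⟩
      subst this
      rfl
    · change b = b' at ht
      subst ht
      have := (hB b (i a')).unique ⟨hf, cancel4 _ _ _ heq⟩ ⟨hg, rfl⟩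
      subst this
      rfl
  have h₀ : Proper (fun f : Edge R => i f.1.1 + j f.1.2) := by
    rintro ⟨⟨a, b⟩, hf⟩ ⟨⟨a', b'⟩, hg⟩ hne ht heq
    apply hne
    change i a + j b = i a' + j b' at heq
    rcases ht with ht | ht
    · change a = a' at ht
      subst ht
      have := (hA a (j b')).unique ⟨hf, cancel1 _ _ _ heq⟩ ⟨hg, rfl⟩
      subst this
      rfl
    · change b = b' at ht
      subst ht
      have := (hB b (i a')).unique ⟨hf, cancel2 _ _ _ heq⟩ ⟨hg, rfl⟩
      subst this
      rfl
  refine two_le_of_ori hR hc h₀ (πA := fun a => Equiv.subLeft (i a + i a))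
    (πB := fun b => Equiv.addRight (j b + j b)) (fun a b h => arith1 _ _)
    (fun b a h => arith2 _ _) ?_
  rw [Ori, Finset.prod_congr rfl fun a _ => sign_refl (i a),
    Finset.prod_congr rfl fun b _ => sign_shift (j b), Finset.prod_const, Finset.prod_const_one,
    mul_one, Finset.card_univ, hodd.neg_one_pow]

/-- **Theorem.** Let `G` be a `k`-regular bipartite graph with the finite sides `A` and `B`, and
let `G'` be a covering graph of `G` of odd degree.

(1) If `G` has two proper `k`-edge-colourings of different sign (the product, over the colours, of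
the signs of the perfect matchings of the colours as bijections from `A` to `B`), then `G'` has at
least two Kempe classes of proper `k`-edge-colourings.

(2) This holds if `k` is odd and `G` has an automorphism which preserves the sides and is an odd
permutation of the vertices, or an automorphism which exchanges the sides and whose square is an
odd permutation of `A`, or two vertices of `A` with the same neighbours.

(3) If a cubic bipartite graph is a covering graph of `K_{3,3}` (the vertices of each side have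
labels in `{0, 1, 2}` such that the three neighbours of each vertex have different labels) and the
number of vertices of a side is odd, then it has at least two Kempe classes of proper
3-edge-colourings. -/
theorem result :
    (∀ (A B : Type) [Fintype A] [DecidableEq A] [Fintype B] [DecidableEq B] (k : ℕ)
      (R : A → B → Prop), Regular R k →
      (∀ (e : B ≃ A) (c c' : Edge R → Fin k), Proper c → Proper c' →
        ∀ σ σ' : Fin k → (A ≃ B), Matches c σ → Matches c' σ' → Sgn e σ ≠ Sgn e σ' →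
        OddCoverKc R k) ∧
      (Odd k → ∀ (φ : Perm A) (ψ : Perm B), (∀ a b, R (φ a) (ψ b) ↔ R a b) →
        sign φ * sign ψ = -1 → OddCoverKc R k) ∧
      (Odd k → ∀ (φ : A ≃ B) (ψ : B ≃ A), (∀ a b, R (ψ b) (φ a) ↔ R a b) →
        sign (φ.trans ψ) = -1 → OddCoverKc R k) ∧
      (Odd k → ∀ a a' : A, a ≠ a' → (∀ b, R a b ↔ R a' b) → OddCoverKc R k)) ∧
    (∀ (A B : Type) [Fintype A] [Fintype B] (R : A → B → Prop) (i : A → Fin 3) (j : B → Fin 3),
      (∀ a t, ∃! b, R a b ∧ j b = t) → (∀ b t, ∃! a, R a b ∧ i a = t) →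
      Odd (Fintype.card A) → 2 ≤ Kc R 3) := by
  refine ⟨?_, ?_⟩
  · intro A B _ _ _ _ k R hR
    exact ⟨fun e c c' hc hc' σ σ' hσ hσ' hne => oddCoverKc e hR hc hc' hσ hσ' hne,
      fun hk φ ψ h h' => cover_of_automorphism hk hR φ ψ h h',
      fun hk φ ψ h h' => cover_of_swap hk hR φ ψ h h',
      fun hk a a' hne h => cover_of_twins hk hR hne h⟩
  · intro A B _ _ R i j hA hB hodd
    exact k33 i j hA hB hodd

end Pool.Agent.Results.MP_7c0803_co.OddCovers
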