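import Mathlib

/-!
# Kempe classes of edge colourings of regular bipartite graphs: the sign

A proper `k`-edge-colouring of a `k`-regular bipartite graph with the sides `A`, `B` is an ordered
`k`-tuple of perfect matchings, that is, of bijections `A ≃ B`. The product of the signs of these
bijections does not change in a Kempe change. So for odd `k` (for instance for cubic graphs) a graph
with an automorphism of the wrong sign has at least two Kempe classes.
-/

set_option autoImplicit false

namespace Pool.Agent.Results.MP_7c0803_co.SignInvariant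

open Equiv Equiv.Perm

variable {A B : Type} {k : ℕ} {R : A → B → Prop}

/-- The edges of the bipartite graph with the sides `A`, `B` in which `a : A` and `b : B` are adjacent
if and only if `R a b`. -/
abbrev Edge (R : A → B → Prop) : Type := {p : A × B // R p.1 p.2}

/-- the graph is `k`-regular -/
def Regular (R : A → B → Prop) (k : ℕ) : Prop :=
  (∀ a, {b | R a b}.ncard = k) ∧ ∀ b, {a | R a b}.ncard = k

/-- two edges have a common endpoint -/
def Touch (e f : Edge R) : Prop := e.1.1 = f.1.1 ∨ e.1.2 = f.1.2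

/-- proper edge colourings -/
def Proper (c : Edge R → Fin k) : Prop :=
  ∀ e f : Edge R, e ≠ f → Touch e f → c e ≠ c f

/-- the edges `e` and `f` are in the same component of the graph formed by the edges of the colours
`x` and `y` -/
def SameComp (c : Edge R → Fin k) (x y : Fin k) : Edge R → Edge R → Prop :=
  Relation.ReflTransGen fun e f => (c e = x ∨ c e = y) ∧ (c f = x ∨ c f = y) ∧ Touch e f

/-- `c'` arises from `c` by a Kempe change: the colours `x` and `y` are swapped on the component of an
edge `e` of the colour `x` or `y` -/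
def KempeChange (c c' : Edge R → Fin k) : Prop :=
  ∃ x y : Fin k, x ≠ y ∧ ∃ e : Edge R, (c e = x ∨ c e = y) ∧
    (∀ f, SameComp c x y e f → c' f = Equiv.swap x y (c f)) ∧
    ∀ f, ¬ SameComp c x y e f → c' f = c f

/-- the number of Kempe classes of proper `k`-edge-colourings -/
noncomputable def Kc (R : A → B → Prop) (k : ℕ) : ℕ :=
  Nat.card (Quot fun c c' : {c : Edge R → Fin k // Proper c} => KempeChange c.1 c'.1)

/-- the bijection `σ x` maps each `a` to the other end of the edge at `a` of the colour `x` -/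
def Matches (c : Edge R → Fin k) (σ : Fin k → (A ≃ B)) : Prop :=
  ∀ x a b, σ x a = b ↔ ∃ h : R a b, c ⟨(a, b), h⟩ = x

/-- the product of the signs of the matchings of the colours, where the sides are identified by
the bijection `e` -/
noncomputable def Sgn [Fintype A] [DecidableEq A] (e : B ≃ A) (σ : Fin k → (A ≃ B)) : ℤˣ :=
  ∏ x, sign ((σ x).trans e)

theorem mateA (hR : Regular R k) {c : Edge R → Fin k} (hc : Proper c) (a : A) (x : Fin k) :
    ∃ b, ∃ h : R a b, c ⟨(a, b), h⟩ = x := by
  have hcard : Nat.card (Fin k) ≤ Nat.card {b // R a b} := by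
    have h1 := hR.1 a
    rw [Nat.card_eq_fintype_card, Fintype.card_fin]
    exact le_of_eq h1.symm
  have hinj : Function.Injective fun b : {b // R a b} => c ⟨(a, b.1), b.2⟩ := by
    intro b b' h
    by_contra hne
    refine hc ⟨(a, b.1), b.2⟩ ⟨(a, b'.1), b'.2⟩ (fun h2 => hne ?_) (Or.inl rfl) h
    have h3 := congrArg (fun e : Edge R => e.1.2) h2
    exact Subtype.ext h3
  obtain ⟨b, hb⟩ := (hinj.bijective_of_nat_card_le hcard).2 x
  exact ⟨b.1, b.2, hb⟩

theorem mateB (hR : Regular R k) {c : Edge R → Fin k} (hc : Proper c) (b : B) (x : Fin k) :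
    ∃ a, ∃ h : R a b, c ⟨(a, b), h⟩ = x := by
  have hcard : Nat.card (Fin k) ≤ Nat.card {a // R a b} := by
    have h1 := hR.2 b
    rw [Nat.card_eq_fintype_card, Fintype.card_fin]
    exact le_of_eq h1.symm
  have hinj : Function.Injective fun a : {a // R a b} => c ⟨(a.1, b), a.2⟩ := by
    intro a a' h
    by_contra hne
    refine hc ⟨(a.1, b), a.2⟩ ⟨(a'.1, b), a'.2⟩ (fun h2 => hne ?_) (Or.inr rfl) h
    have h3 := congrArg (fun e : Edge R => e.1.1) h2
    exact Subtype.ext h3
  obtain ⟨a, ha⟩ := (hinj.bijective_of_nat_card_le hcard).2 x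
  exact ⟨a.1, a.2, ha⟩

theorem Proper.uniqueA {c : Edge R → Fin k} (hc : Proper c) {a : A} {b b' : B} (h : R a b)
    (h' : R a b') (e : c ⟨(a, b), h⟩ = c ⟨(a, b'), h'⟩) : b = b' := by
  by_contra hne
  refine hc ⟨(a, b), h⟩ ⟨(a, b'), h'⟩ (fun h2 => hne ?_) (Or.inl rfl) e
  exact congrArg (fun e : Edge R => e.1.2) h2

theorem Proper.uniqueB {c : Edge R → Fin k} (hc : Proper c) {a a' : A} {b : B} (h : R a b)
    (h' : R a' b) (e : c ⟨(a, b), h⟩ = c ⟨(a', b), h'⟩) : a = a' := by
  by_contra hne
  refine hc ⟨(a, b), h⟩ ⟨(a', b), h'⟩ (fun h2 => hne ?_) (Or.inr rfl) e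
  exact congrArg (fun e : Edge R => e.1.1) h2

/-- the matchings of a proper colouring -/
theorem exists_matches (hR : Regular R k) {c : Edge R → Fin k} (hc : Proper c) :
    ∃ σ : Fin k → (A ≃ B), Matches c σ := by
  have h1 : ∀ x : Fin k, ∃ s : A ≃ B, ∀ a b, s a = b ↔ ∃ h : R a b, c ⟨(a, b), h⟩ = x := by
    intro x
    choose f hf hfx using fun a => mateA hR hc a x
    have hbij : Function.Bijective f := by
      constructor
      · intro a a' h
        have hf' := hf a'
        have hfx' := hfx a'
        rw [← h] at hf'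
        have e2 : c ⟨(a', f a), hf'⟩ = x := by
          rw [← hfx a']
          congr 3
        exact hc.uniqueB (hf a) hf' ((hfx a).trans e2.symm)
      · intro b
        obtain ⟨a, ha, hax⟩ := mateB hR hc b x
        exact ⟨a, hc.uniqueA (hf a) ha ((hfx a).trans hax.symm)⟩
    refine ⟨Equiv.ofBijective f hbij, fun a b => ?_⟩
    rw [Equiv.ofBijective_apply]
    constructor
    · rintro rfl
      exact ⟨hf a, hfx a⟩
    · rintro ⟨h, hx⟩
      exact hc.uniqueA (hf a) h ((hfx a).trans hx.symm)
  choose σ hσ using h1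
  exact ⟨σ, hσ⟩

theorem Matches.edge {c : Edge R → Fin k} {σ : Fin k → (A ≃ B)} (h : Matches c σ) (x : Fin k)
    (a : A) : ∃ hR : R a (σ x a), c ⟨(a, σ x a), hR⟩ = x := (h x a _).1 rfl

theorem Matches.unique {c : Edge R → Fin k} {σ σ' : Fin k → (A ≃ B)} (h : Matches c σ)
    (h' : Matches c σ') : σ = σ' := by
  funext x
  ext a
  exact (h x a _).2 (h'.edge x a)

/-- **a Kempe change does not change the sign** -/
theorem sgn_kempe [Fintype A] [DecidableEq A] (e : B ≃ A) {c c' : Edge R → Fin k}
    {σ σ' : Fin k → (A ≃ B)} (h : Matches c σ) (h' : Matches c' σ') (hk : KempeChange c c') :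
    Sgn e σ' = Sgn e σ := by
  classical
  obtain ⟨x, y, hxy, e₀, -, hin, hout⟩ := hk
  -- the vertices of `A` in the component
  set P : A → Prop := fun a => SameComp c x y e₀ ⟨(a, σ x a), (h.edge x a).1⟩ with hP
  have hPy : ∀ a, P a ↔ SameComp c x y e₀ ⟨(a, σ y a), (h.edge y a).1⟩ := by
    intro a
    constructor
    · intro ha
      exact ha.tail ⟨Or.inl (h.edge x a).2, Or.inr (h.edge y a).2, Or.inl rfl⟩
    · intro ha
      exact ha.tail ⟨Or.inr (h.edge y a).2, Or.inl (h.edge x a).2, Or.inl rfl⟩
  set τ : Perm A := (σ x).trans (σ y).symm with hτ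
  have hτa : ∀ a, σ y (τ a) = σ x a := fun a => by simp [hτ]
  have hPτ : ∀ a, P (τ a) ↔ P a := by
    intro a
    rw [hPy (τ a)]
    have t : Touch (⟨(τ a, σ y (τ a)), (h.edge y (τ a)).1⟩ : Edge R)
        ⟨(a, σ x a), (h.edge x a).1⟩ := Or.inr (hτa a)
    constructor
    · intro ha
      exact ha.tail ⟨Or.inr (h.edge y _).2, Or.inl (h.edge x a).2, t⟩
    · intro ha
      exact ha.tail ⟨Or.inl (h.edge x a).2, Or.inr (h.edge y _).2, Or.inr (hτa a).symm⟩
  set ρ : Perm A := Equiv.Perm.ofSubtype (τ.subtypePerm hPτ) with hρ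
  have hρ1 : ∀ a, P a → ρ a = τ a := fun a ha => by
    rw [hρ, Equiv.Perm.ofSubtype_apply_of_mem _ ha]
    rfl
  have hρ2 : ∀ a, ¬ P a → ρ a = a := fun a ha => by
    rw [hρ, Equiv.Perm.ofSubtype_apply_of_not_mem _ ha]
  -- the new matchings
  have hz : ∀ z, z ≠ x → z ≠ y → σ' z = σ z := by
    intro z hzx hzy
    ext a
    rw [h' z a]
    refine ⟨(h.edge z a).1, ?_⟩
    by_cases hs : SameComp c x y e₀ ⟨(a, σ z a), (h.edge z a).1⟩
    · rw [hin _ hs, (h.edge z a).2, Equiv.swap_apply_of_ne_of_ne hzx hzy]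
    · rw [hout _ hs, (h.edge z a).2]
  have hy : σ' y = ρ.trans (σ y) := by
    ext a
    rw [h' y a, Equiv.trans_apply]
    by_cases ha : P a
    · rw [hρ1 a ha, hτa]
      refine ⟨(h.edge x a).1, ?_⟩
      rw [hin _ ha, (h.edge x a).2, Equiv.swap_apply_left]
    · rw [hρ2 a ha]
      refine ⟨(h.edge y a).1, ?_⟩
      rw [hout _ fun hs => ha ((hPy a).2 hs), (h.edge y a).2]
  have hx : σ' x = ρ.symm.trans (σ x) := by
    have h1 : ∀ a, σ' x (ρ a) = σ x a := by
      intro a
      rw [h' x]
      by_cases ha : P a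
      · rw [hρ1 a ha]
        have ha' := (hPτ a).2 ha
        have h2 := hin _ ((hPy (τ a)).1 ha')
        rw [(h.edge y (τ a)).2, Equiv.swap_apply_right] at h2
        have e2 : (⟨(τ a, σ y (τ a)), (h.edge y (τ a)).1⟩ : Edge R) =
            ⟨(τ a, σ x a), by rw [← hτa a]; exact (h.edge y (τ a)).1⟩ :=
          Subtype.ext (Prod.ext rfl (hτa a))
        rw [e2] at h2
        exact ⟨_, h2⟩
      · rw [hρ2 a ha]
        refine ⟨(h.edge x a).1, ?_⟩
        rw [hout _ ha, (h.edge x a).2]
    ext a
    rw [Equiv.trans_apply, ← h1, Equiv.apply_symm_apply]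
  have key : ∀ z, sign ((σ' z).trans e) = sign ((σ z).trans e) * (if z = x then sign ρ else 1) *
      (if z = y then sign ρ else 1) := by
    intro z
    by_cases hzx : z = x
    · subst hzx
      rw [if_pos rfl, if_neg hxy, mul_one, hx]
      have : (ρ.symm.trans (σ z)).trans e = (σ z).trans e * ρ⁻¹ := rfl
      rw [this, Equiv.Perm.sign_mul, Equiv.Perm.sign_inv]
    · by_cases hzy : z = y
      · subst hzy
        rw [if_neg hzx, if_pos rfl, mul_one, hy]
        have : (ρ.trans (σ z)).trans e = (σ z).trans e * ρ := rfl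
        rw [this, Equiv.Perm.sign_mul]
      · rw [if_neg hzx, if_neg hzy, mul_one, mul_one, hz z hzx hzy]
  rw [Sgn, Sgn, Finset.prod_congr rfl fun z _ => key z, Finset.prod_mul_distrib,
    Finset.prod_mul_distrib, Finset.prod_ite_eq', Finset.prod_ite_eq', if_pos (Finset.mem_univ _),
    if_pos (Finset.mem_univ _), mul_assoc, Int.units_mul_self, mul_one]

/-! ### the number of classes -/

theorem finite_quot [Finite A] [Finite B] :
    Finite (Quot fun c c' : {c : Edge R → Fin k // Proper c} => KempeChange c.1 c'.1) :=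
  Quot.finite _

/-- two colourings of different sign are in different classes -/
theorem two_le [Fintype A] [DecidableEq A] [Finite B] (e : B ≃ A) (hR : Regular R k)
    {c c' : Edge R → Fin k} (hc : Proper c) (hc' : Proper c') {σ σ' : Fin k → (A ≃ B)}
    (h : Matches c σ) (h' : Matches c' σ') (hne : Sgn e σ ≠ Sgn e σ') : 2 ≤ Kc R k := by
  classical
  choose m hm using fun d : {c : Edge R → Fin k // Proper c} => exists_matches hR d.2
  let F : Quot (fun c c' : {c : Edge R → Fin k // Proper c} => KempeChange c.1 c'.1) → ℤˣ :=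
    Quot.lift (fun d => Sgn e (m d)) fun d d' hk => (sgn_kempe e (hm d) (hm d') hk).symm
  have hfin := finite_quot (R := R) (k := k)
  have h1 : Quot.mk (fun c c' : {c : Edge R → Fin k // Proper c} => KempeChange c.1 c'.1) ⟨c, hc⟩ ≠
      Quot.mk _ ⟨c', hc'⟩ := by
    intro heq
    have h2 := congrArg F heq
    change Sgn e (m ⟨c, hc⟩) = Sgn e (m ⟨c', hc'⟩) at h2
    rw [(hm ⟨c, hc⟩).unique h, (hm ⟨c', hc'⟩).unique h'] at h2
    exact hne h2
  have : Nontrivial (Quot fun c c' : {c : Edge R → Fin k // Proper c} => KempeChange c.1 c'.1) :=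
    ⟨⟨_, _, h1⟩⟩
  exact Finite.one_lt_card

/-! ### existence of a colouring (König) -/

theorem card_eq [Finite A] [Finite B] (hk : 0 < k) (hR : Regular R k) :
    Nat.card A = Nat.card B := by
  classical
  have := Fintype.ofFinite A
  have := Fintype.ofFinite B
  have h := Finset.card_mul_eq_card_mul (s := (Finset.univ : Finset A))
    (t := (Finset.univ : Finset B)) R (m := k) (n := k)
    (fun a _ => by
      rw [← hR.1 a, Set.ncard_eq_toFinset_card']
      congr 1
      ext b
      simp [Finset.bipartiteAbove])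
    (fun b _ => by
      rw [← hR.2 b, Set.ncard_eq_toFinset_card']
      congr 1
      ext a
      simp [Finset.bipartiteBelow])
  rw [Nat.card_eq_fintype_card, Nat.card_eq_fintype_card]
  exact Nat.eq_of_mul_eq_mul_right hk h

theorem perfect_matching [Finite A] [Finite B] (hk : 0 < k) (hR : Regular R k) :
    ∃ s : A ≃ B, ∀ a, R a (s a) := by
  classical
  have := Fintype.ofFinite A
  have := Fintype.ofFinite B
  have hall := (Finset.all_card_le_biUnion_card_iff_exists_injective
    (fun a : A => Finset.univ.filter fun b : B => R a b)).1 (by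
      intro s
      have h := Finset.card_mul_le_card_mul (s := s)
        (t := s.biUnion fun a : A => Finset.univ.filter fun b : B => R a b) R (m := k) (n := k)
        (fun a ha => by
          rw [← hR.1 a, Set.ncard_eq_toFinset_card']
          refine Finset.card_le_card fun b hb => ?_
          rw [Set.mem_toFinset, Set.mem_ofPred_eq] at hb
          rw [Finset.mem_bipartiteAbove, Finset.mem_biUnion]
          exact ⟨⟨a, ha, by simpa using hb⟩, hb⟩)
        (fun b _ => by
          rw [← hR.2 b, Set.ncard_eq_toFinset_card']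
          refine Finset.card_le_card fun a ha => ?_
          rw [Finset.mem_bipartiteBelow] at ha
          rw [Set.mem_toFinset, Set.mem_ofPred_eq]
          exact ha.2)
      exact Nat.le_of_mul_le_mul_right h hk)
  obtain ⟨f, hinj, hf⟩ := hall
  have hbij := hinj.bijective_of_nat_card_le (card_eq hk hR).symm.le
  refine ⟨Equiv.ofBijective f hbij, fun a => ?_⟩
  simpa using hf a

theorem koenig [Finite A] [Finite B] : ∀ (k : ℕ) (R : A → B → Prop), Regular R k →
    ∃ σ : Fin k → (A ≃ B), ∀ a b, (R a b ↔ ∃ x, σ x a = b) ∧ ∀ x y, σ x a = σ y a → x = y := by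
  intro k
  induction k with
  | zero =>
    intro R hR
    refine ⟨fun x => x.elim0, fun a b => ⟨⟨fun h => ?_, fun ⟨x, _⟩ => x.elim0⟩, fun x => x.elim0⟩⟩
    have h1 := hR.1 a
    rw [Set.ncard_eq_zero (Set.toFinite _)] at h1
    exact absurd h (Set.eq_empty_iff_forall_notMem.1 h1 b)
  | succ k ih =>
    intro R hR
    obtain ⟨s, hs⟩ := perfect_matching (Nat.succ_pos k) hR
    obtain ⟨σ, hσ⟩ := ih (fun a b => R a b ∧ s a ≠ b) ⟨fun a => by
        have h1 := Set.ncard_sdiff_singleton_of_mem (s := {b | R a b}) (a := s a) (hs a)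
        rw [hR.1 a] at h1
        rw [← Nat.add_sub_cancel (n := k) (m := 1), ← h1]
        congr 1
        ext b
        simp only [Set.mem_ofPred_eq, Set.mem_sdiff, Set.mem_singleton_iff]
        exact and_congr_right fun _ => not_congr eq_comm, fun b => by
        have h1 := Set.ncard_sdiff_singleton_of_mem (s := {a | R a b}) (a := s.symm b)
          (by have := hs (s.symm b); rwa [Equiv.apply_symm_apply] at this)
        rw [hR.2 b] at h1
        rw [← Nat.add_sub_cancel (n := k) (m := 1), ← h1]
        congr 1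
        ext a
        simp only [Set.mem_ofPred_eq, Set.mem_sdiff, Set.mem_singleton_iff]
        refine and_congr_right fun _ => not_congr ?_
        rw [Equiv.eq_symm_apply]⟩
    refine ⟨Fin.cons s σ, fun a b => ⟨?_, ?_⟩⟩
    · constructor
      · intro h
        by_cases hb : s a = b
        · exact ⟨0, by rw [Fin.cons_zero]; exact hb⟩
        · obtain ⟨x, hx⟩ := (hσ a b).1.1 ⟨h, hb⟩
          exact ⟨x.succ, by rw [Fin.cons_succ]; exact hx⟩
      · rintro ⟨x, hx⟩
        induction x using Fin.cases with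
        | zero =>
          rw [Fin.cons_zero] at hx
          rw [← hx]
          exact hs a
        | succ x =>
          rw [Fin.cons_succ] at hx
          exact ((hσ a b).1.2 ⟨x, hx⟩).1
    · intro x y
      induction x using Fin.cases with
      | zero =>
        induction y using Fin.cases with
        | zero => intro _; rfl
        | succ y =>
          rw [Fin.cons_zero, Fin.cons_succ]
          intro h
          exact absurd h ((hσ a (σ y a)).1.2 ⟨y, rfl⟩).2
      | succ x =>
        induction y using Fin.cases with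
        | zero =>
          rw [Fin.cons_zero, Fin.cons_succ]
          intro h
          exact absurd h.symm ((hσ a (σ x a)).1.2 ⟨x, rfl⟩).2
        | succ y =>
          rw [Fin.cons_succ, Fin.cons_succ]
          intro h
          rw [(hσ a b).2 x y h]

theorem exists_proper [Finite A] [Finite B] (hR : Regular R k) :
    ∃ c : Edge R → Fin k, Proper c := by
  obtain ⟨σ, hσ⟩ := koenig k R hR
  choose c hc using fun e : Edge R => (hσ e.1.1 e.1.2).1.1 e.2
  refine ⟨c, fun e f hne ht hcc => hne ?_⟩
  have h1 := hc e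
  have h2 := hc f
  rw [← hcc] at h2
  apply Subtype.ext
  rcases ht with ht | ht
  · rw [← ht, h1] at h2
    exact Prod.ext ht h2
  · rw [← ht, ← h1] at h2
    exact Prod.ext ((σ (c e)).injective h2.symm) ht

/-! ### automorphisms -/

/-- an automorphism which preserves the sides and is an odd permutation of the vertices -/
theorem of_automorphism [Fintype A] [DecidableEq A] [Fintype B] [DecidableEq B] (hk : Odd k)
    (hR : Regular R k) (φ : Perm A) (ψ : Perm B) (h : ∀ a b, R (φ a) (ψ b) ↔ R a b)
    (hodd : sign φ * sign ψ = -1) : 2 ≤ Kc R k := by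
  obtain ⟨c, hc⟩ := exists_proper hR
  obtain ⟨σ, hσ⟩ := exists_matches hR hc
  have hAB : Nonempty (B ≃ A) := by
    obtain ⟨x⟩ : Nonempty (Fin k) := ⟨⟨0, hk.pos⟩⟩
    exact ⟨(σ x).symm⟩
  obtain ⟨e⟩ := hAB
  let c' : Edge R → Fin k := fun f => c ⟨(φ f.1.1, ψ f.1.2), (h _ _).2 f.2⟩
  have hc' : Proper c' := by
    intro f g hfg ht
    refine hc _ _ (fun heq => hfg ?_) ?_
    · have h1 : φ f.1.1 = φ g.1.1 := congrArg (fun e : Edge R => e.1.1) heq
      have h2 : ψ f.1.2 = ψ g.1.2 := congrArg (fun e : Edge R => e.1.2) heq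
      exact Subtype.ext (Prod.ext (φ.injective h1) (ψ.injective h2))
    · rcases ht with ht | ht
      · exact Or.inl (congrArg φ ht)
      · exact Or.inr (congrArg ψ ht)
  let σ' : Fin k → (A ≃ B) := fun x => (φ.trans (σ x)).trans ψ.symm
  have hσ' : Matches c' σ' := by
    intro x a b
    change ψ.symm (σ x (φ a)) = b ↔ _
    rw [Equiv.symm_apply_eq, hσ x]
    constructor
    · rintro ⟨h1, h2⟩
      exact ⟨(h a b).1 h1, h2⟩
    · rintro ⟨h1, h2⟩
      exact ⟨(h a b).2 h1, h2⟩
  refine two_le e hR hc hc' hσ hσ' ?_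
  have key : ∀ x, sign ((σ' x).trans e) = sign ((σ x).trans e) * (-1) := by
    intro x
    have h1 : (σ' x).trans e = ((e.symm.trans ψ.symm).trans e) * ((σ x).trans e) * φ := by
      ext a
      simp [σ']
    rw [h1, Equiv.Perm.sign_mul, Equiv.Perm.sign_mul, Equiv.Perm.sign_symm_trans_trans,
      Equiv.Perm.sign_symm, ← hodd]
    rw [mul_comm (sign ψ), mul_assoc, mul_comm (sign ψ)]
  rw [Sgn, Sgn, Finset.prod_congr rfl fun x _ => key x, Finset.prod_mul_distrib,
    Finset.prod_const, Finset.card_univ, Fintype.card_fin, hk.neg_one_pow]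
  intro heq
  rcases Int.units_eq_one_or (∏ x, sign ((σ x).trans e)) with h1 | h1
  · rw [h1] at heq
    exact absurd heq (by decide)
  · rw [h1] at heq
    exact absurd heq (by decide)

/-- an automorphism `(φ, ψ)` which exchanges the sides and whose square is an odd permutation of `A` -/
theorem of_swap [Fintype A] [DecidableEq A] [Finite B] (hk : Odd k)
    (hR : Regular R k) (φ : A ≃ B) (ψ : B ≃ A) (h : ∀ a b, R (ψ b) (φ a) ↔ R a b)
    (hodd : sign (φ.trans ψ) = -1) : 2 ≤ Kc R k := by
  obtain ⟨c, hc⟩ := exists_proper hR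
  obtain ⟨σ, hσ⟩ := exists_matches hR hc
  let c' : Edge R → Fin k := fun f => c ⟨(ψ f.1.2, φ f.1.1), (h _ _).2 f.2⟩
  have hc' : Proper c' := by
    intro f g hfg ht
    refine hc _ _ (fun heq => hfg ?_) ?_
    · have h1 : ψ f.1.2 = ψ g.1.2 := congrArg (fun e : Edge R => e.1.1) heq
      have h2 : φ f.1.1 = φ g.1.1 := congrArg (fun e : Edge R => e.1.2) heq
      exact Subtype.ext (Prod.ext (φ.injective h2) (ψ.injective h1))
    · rcases ht with ht | ht
      · exact Or.inr (congrArg φ ht)
      · exact Or.inl (congrArg ψ ht)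
  let σ' : Fin k → (A ≃ B) := fun x => (φ.trans (σ x).symm).trans ψ.symm
  have hσ' : Matches c' σ' := by
    intro x a b
    change ψ.symm ((σ x).symm (φ a)) = b ↔ _
    rw [Equiv.symm_apply_eq, Equiv.symm_apply_eq, eq_comm, hσ x]
    constructor
    · rintro ⟨h1, h2⟩
      exact ⟨(h a b).1 h1, h2⟩
    · rintro ⟨h1, h2⟩
      exact ⟨(h a b).2 h1, h2⟩
  refine two_le ψ hR hc hc' hσ hσ' ?_
  have key : ∀ x, sign ((σ' x).trans ψ) = sign ((σ x).trans ψ) * (-1) := by
    intro x
    have h1 : (σ' x).trans ψ = ((σ x).trans ψ)⁻¹ * (φ.trans ψ) := by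
      ext a
      simp [σ', Equiv.Perm.inv_def]
    rw [h1, Equiv.Perm.sign_mul, Equiv.Perm.sign_inv, hodd]
  rw [Sgn, Sgn, Finset.prod_congr rfl fun x _ => key x, Finset.prod_mul_distrib,
    Finset.prod_const, Finset.card_univ, Fintype.card_fin, hk.neg_one_pow]
  intro heq
  rcases Int.units_eq_one_or (∏ x, sign ((σ x).trans ψ)) with h1 | h1
  · rw [h1] at heq
    exact absurd heq (by decide)
  · rw [h1] at heq
    exact absurd heq (by decide)

/-! ### colourings with connected two-coloured graphs -/

theorem SameComp.color {c : Edge R → Fin k} {x y : Fin k} {e f : Edge R}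
    (he : c e = x ∨ c e = y) (h : SameComp c x y e f) : c f = x ∨ c f = y := by
  induction h with
  | refl => exact he
  | tail _ h _ => exact h.2.1

theorem sameComp_congr {c c' : Edge R → Fin k} {x y x' y' : Fin k}
    (h : ∀ f, (c f = x ∨ c f = y) → (c' f = x' ∨ c' f = y')) {e f : Edge R}
    (hs : SameComp c x y e f) : SameComp c' x' y' e f :=
  Relation.ReflTransGen.mono (fun a b hab => ⟨h a hab.1, h b hab.2.1, hab.2.2⟩) _ _ hs

theorem KempeChange.symm {c c' : Edge R → Fin k} (h : KempeChange c c') : KempeChange c' c := by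
  obtain ⟨x, y, hxy, e, he, hin, hout⟩ := h
  have hcol : ∀ f, (c' f = x ∨ c' f = y) ↔ (c f = x ∨ c f = y) := by
    intro f
    by_cases hs : SameComp c x y e f
    · rw [hin f hs]
      rcases hs.color he with h1 | h1
      · rw [h1, Equiv.swap_apply_left]
        simp
      · rw [h1, Equiv.swap_apply_right]
        simp
    · rw [hout f hs]
  have hsc : ∀ f, SameComp c' x y e f ↔ SameComp c x y e f := fun f =>
    ⟨sameComp_congr fun g => (hcol g).1, sameComp_congr fun g => (hcol g).2⟩
  refine ⟨x, y, hxy, e, (hcol e).2 he, fun f hf => ?_, fun f hf => ?_⟩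
  · rw [hin f ((hsc f).1 hf), Equiv.swap_apply_self]
  · rw [hout f fun hs => hf ((hsc f).2 hs)]

/-- every two colours form a connected graph -/
def Perfect (c : Edge R → Fin k) : Prop :=
  ∀ x y : Fin k, x ≠ y → ∀ e f, (c e = x ∨ c e = y) → (c f = x ∨ c f = y) → SameComp c x y e f

theorem perm_of_change {c₀ c c' : Edge R → Fin k} (hp : Perfect c₀) {π : Perm (Fin k)}
    (hc : ∀ f, c f = π (c₀ f)) (h : KempeChange c c') :
    ∃ π' : Perm (Fin k), ∀ f, c' f = π' (c₀ f) := by
  obtain ⟨x, y, hxy, e, he, hin, hout⟩ := h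
  have hcol : ∀ f, (c₀ f = π.symm x ∨ c₀ f = π.symm y) ↔ (c f = x ∨ c f = y) := by
    intro f
    rw [hc f, ← Equiv.eq_symm_apply, ← Equiv.eq_symm_apply]
  refine ⟨Equiv.swap x y * π, fun f => ?_⟩
  rw [Equiv.Perm.mul_apply, ← hc f]
  by_cases hf : c f = x ∨ c f = y
  · exact hin f (sameComp_congr (fun g => (hcol g).1) (hp _ _ (fun h => hxy (π.symm.injective h)) e f
      ((hcol e).2 he) ((hcol f).2 hf)))
  · rw [hout f fun hs => hf (hs.color he)]
    rw [not_or] at hf
    rw [Equiv.swap_apply_of_ne_of_ne hf.1 hf.2]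

theorem of_perfect [Finite A] [Finite B] {c₀ c₁ : Edge R → Fin k} (h₀ : Proper c₀)
    (h₁ : Proper c₁) (hp : Perfect c₀) (hne : ¬ ∃ π : Perm (Fin k), ∀ f, c₁ f = π (c₀ f)) :
    2 ≤ Kc R k := by
  let F : Quot (fun c c' : {c : Edge R → Fin k // Proper c} => KempeChange c.1 c'.1) → Prop :=
    Quot.lift (fun d => ∃ π : Perm (Fin k), ∀ f, d.1 f = π (c₀ f)) fun d d' hk => by
      apply propext
      constructor
      · rintro ⟨π, hπ⟩
        exact perm_of_change hp hπ hk
      · rintro ⟨π, hπ⟩
        exact perm_of_change hp hπ hk.symm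
  have hfin := finite_quot (R := R) (k := k)
  have h1 : Quot.mk (fun c c' : {c : Edge R → Fin k // Proper c} => KempeChange c.1 c'.1)
      ⟨c₀, h₀⟩ ≠ Quot.mk _ ⟨c₁, h₁⟩ := by
    intro heq
    have h2 := congrArg F heq
    change (∃ π : Perm (Fin k), ∀ f, c₀ f = π (c₀ f)) = (∃ π : Perm (Fin k), ∀ f, c₁ f = π (c₀ f))
      at h2
    rw [← h2] at hne
    exact hne ⟨1, fun f => rfl⟩
  have : Nontrivial (Quot fun c c' : {c : Edge R → Fin k // Proper c} => KempeChange c.1 c'.1) :=
    ⟨⟨_, _, h1⟩⟩
  exact Finite.one_lt_card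

/-- twins -/
theorem of_twins [Finite A] [Finite B] (hk : Odd k) (hR : Regular R k) {a a' : A} (hne : a ≠ a')
    (h : ∀ b, R a b ↔ R a' b) : 2 ≤ Kc R k := by
  classical
  have := Fintype.ofFinite A
  have := Fintype.ofFinite B
  refine of_automorphism hk hR (Equiv.swap a a') 1 (fun x b => ?_) ?_
  · rw [Equiv.Perm.one_apply]
    by_cases hx : x = a
    · rw [hx, Equiv.swap_apply_left, h]
    · by_cases hx' : x = a'
      · rw [hx', Equiv.swap_apply_right, h]
      · rw [Equiv.swap_apply_of_ne_of_ne hx hx']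
  · rw [Equiv.Perm.sign_swap hne, Equiv.Perm.sign_one, mul_one]

/-- Kempe equivalence of proper colourings -/
def KempeEquiv (c c' : {c : Edge R → Fin k // Proper c}) : Prop :=
  Relation.EqvGen (fun c c' : {c : Edge R → Fin k // Proper c} => KempeChange c.1 c'.1) c c'

theorem sgn_equiv [Fintype A] [DecidableEq A] (e : B ≃ A) (hR : Regular R k)
    {c c' : {c : Edge R → Fin k // Proper c}} (h : KempeEquiv c c') :
    ∀ σ σ' : Fin k → (A ≃ B), Matches c.1 σ → Matches c'.1 σ' → Sgn e σ = Sgn e σ' := by
  induction h with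
  | rel c c' h =>
    intro σ σ' hσ hσ'
    exact (sgn_kempe e hσ hσ' h).symm
  | refl c =>
    intro σ σ' hσ hσ'
    rw [hσ.unique hσ']
  | symm c c' _ ih =>
    intro σ σ' hσ hσ'
    exact (ih σ' σ hσ' hσ).symm
  | trans c c' c'' _ _ ih ih' =>
    intro σ σ'' hσ hσ''
    obtain ⟨σ', hσ'⟩ := exists_matches hR c'.2
    exact (ih σ σ' hσ hσ').trans (ih' σ' σ'' hσ' hσ'')

/-- **Theorem.** Let `G` be a `k`-regular bipartite graph with the finite sides `A` and `B`.

(1) Two Kempe equivalent proper `k`-edge-colourings have the same sign, where the sign is the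
product, over the colours, of the signs of the perfect matchings of the colours (as bijections from
`A` to `B`, with any fixed identification `e` of the sides).

(2) If all proper `k`-edge-colourings are Kempe equivalent (`Kc = 1`) then they all have the same
sign.

(3) If `k` is odd and `G` has an automorphism which preserves the sides and is an odd permutation
of the vertices, then there are at least two Kempe classes.

(4) If `k` is odd and `G` has an automorphism which exchanges the sides and whose square is an odd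
permutation of `A`, then there are at least two Kempe classes.

(5) If `k` is odd and two vertices of `A` have the same neighbours, then there are at least two
Kempe classes. (For cubic graphs: if `G` contains `K_{2,3}`.)

(6) If `G` has a proper `k`-edge-colouring in which every two colours form a connected graph, and a
proper `k`-edge-colouring which does not arise from it by permuting the colours, then there are at
least two Kempe classes. -/
theorem result : ∀ (A B : Type) [Fintype A] [DecidableEq A] [Fintype B] [DecidableEq B] (k : ℕ)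
    (R : A → B → Prop), Regular R k →
    (∀ (e : B ≃ A) (c c' : {c : Edge R → Fin k // Proper c}), KempeEquiv c c' →
      ∀ σ σ' : Fin k → (A ≃ B), Matches c.1 σ → Matches c'.1 σ' → Sgn e σ = Sgn e σ') ∧
    (Kc R k = 1 → ∀ (e : B ≃ A) (c c' : Edge R → Fin k), Proper c → Proper c' →
      ∀ σ σ' : Fin k → (A ≃ B), Matches c σ → Matches c' σ' → Sgn e σ = Sgn e σ') ∧
    (Odd k → ∀ (φ : Perm A) (ψ : Perm B), (∀ a b, R (φ a) (ψ b) ↔ R a b) →
      sign φ * sign ψ = -1 → 2 ≤ Kc R k) ∧
    (Odd k → ∀ (φ : A ≃ B) (ψ : B ≃ A), (∀ a b, R (ψ b) (φ a) ↔ R a b) →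
      sign (φ.trans ψ) = -1 → 2 ≤ Kc R k) ∧
    (Odd k → ∀ a a' : A, a ≠ a' → (∀ b, R a b ↔ R a' b) → 2 ≤ Kc R k) ∧
    (∀ c₀ c₁ : Edge R → Fin k, Proper c₀ → Proper c₁ → Perfect c₀ →
      (¬ ∃ π : Perm (Fin k), ∀ f, c₁ f = π (c₀ f)) → 2 ≤ Kc R k) := by
  intro A B _ _ _ _ k R hR
  refine ⟨fun e c c' h => sgn_equiv e hR h, fun h1 e c c' hc hc' σ σ' hσ hσ' => ?_,
    fun hk φ ψ h h' => of_automorphism hk hR φ ψ h h', fun hk φ ψ h h' => of_swap hk hR φ ψ h h',
    fun hk a a' hne h => of_twins hk hR hne h, fun c₀ c₁ h₀ h₁ hp hne => of_perfect h₀ h₁ hp hne⟩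
  by_contra hne
  have := two_le e hR hc hc' hσ hσ' hne
  omega

end Pool.Agent.Results.MP_7c0803_co.SignInvariant
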